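import Pool.Agent.Helper72K.Fus

/-!
# Uniform two-sided estimates at a single coordinate
-/

set_option autoImplicit false

open Filter Topology Set MeasureTheory

namespace Pool.Agent.Helper72K

variable {q : ℝ} {θ : Z → ℕ → ℝ}

/-- the distance at one coordinate -/
noncomputable def Dk (q : ℝ) (θ : Z → ℕ → ℝ) (z : Z) (k u v : ℕ) : ℝ :=
  ∑' i, |θ (Function.update z k u) i - θ (Function.update z k v) i| ^ q

theorem Dk_nonneg (z : Z) (k u v : ℕ) : 0 ≤ Dk q θ z k u v :=
  tsum_nonneg fun _ => by positivity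

theorem summable_update (hfin : Fin2 q θ) (z : Z) (k u v : ℕ) :
    Summable fun i => |θ (Function.update z k u) i - θ (Function.update z k v) i| ^ q :=
  hfin _ _ (k + 1) fun j hj => by
    rw [Function.update_of_ne (by omega), Function.update_of_ne (by omega)]

theorem tsum_le_bd {f : ℕ → ℝ} (hf : ∀ i, 0 ≤ f i) {c : ℝ} (h : ∀ s : Finset ℕ, ∑ i ∈ s, f i ≤ c) :
    Summable f ∧ ∑' i, f i ≤ c := by
  have h1 : Summable f := summable_of_sum_le hf h
  exact ⟨h1, h1.tsum_le_of_sum_le h⟩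

theorem half_summable : Summable fun n : ℕ => (1 / 2 : ℝ) ^ n :=
  summable_geometric_of_lt_one (by norm_num) (by norm_num)

theorem additive (hq : 0 < q) (hm : Measurable θ) (hfin : Fin2 q θ) :
    ∃ z : Z, ∀ (F : ℕ → Finset ℕ) (P : ℕ → Set ℕ), (∀ k, z k ∈ F k) → (∀ j, (P j).Infinite) →
    ∃ n : ℕ → ℕ, StrictMono n ∧ (∀ j, n j ∈ P j) ∧
      ∀ x y : Z, (∀ k, k ∉ range n → x k = z k) → (∀ k, k ∉ range n → y k = z k) →
        (∀ k, x k ∈ F k) → (∀ k, y k ∈ F k) →
        ((Summable fun i => |θ x i - θ y i| ^ q) ↔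
          Summable fun j => Dk q θ z (n j) (x (n j)) (y (n j))) := by
  obtain ⟨z, hz⟩ := fusion hq hm hfin
  refine ⟨z, fun F P hF hP => ?_⟩
  obtain ⟨n, l, hn, hl, hnP, hA, hB⟩ := hz F P hF hP
  refine ⟨n, hn, hnP, fun x y hx hy hxF hyF => ?_⟩
  have hA1 := hA x hx hxF
  have hA2 := hA y hy hyF
  have hsymm : ∀ (s : Finset ℕ) (a b : ℕ → ℝ), ∑ i ∈ s, |a i - b i| ^ q =
      ∑ i ∈ s, |b i - a i| ^ q := fun s a b =>
    Finset.sum_congr rfl fun i _ => by rw [abs_sub_comm]
  rw [block_summable _ (fun _ => by positivity) l hl]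
  have h2 : (0 : ℝ) ≤ 2 ^ q := by positivity
  constructor
  · intro h
    have hs1 : Summable fun j => 2 ^ q * (2 ^ q * (2 * (1 / 2 : ℝ) ^ j) +
        2 ^ q * ((∑ i ∈ Finset.Ico (l j) (l (j + 1)), |θ x i - θ y i| ^ q) +
          2 ^ q * (2 * (1 / 2) ^ j))) :=
      (((half_summable.mul_left 2).mul_left _).add
        ((h.add ((half_summable.mul_left 2).mul_left _)).mul_left _)).mul_left _
    have hs2 : Summable fun j => 2 ^ q * ((1 / 2 : ℝ) ^ j + (1 / 2) ^ j) :=
      (half_summable.add half_summable).mul_left _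
    refine Summable.of_nonneg_of_le (fun j => Dk_nonneg _ _ _ _) (fun j => ?_)
      ((hs2.add hs1).add hs2)
    refine (tsum_le_bd (fun _ => by positivity) fun s => ?_).2
    obtain ⟨x1, x2⟩ := hB j (x (n j)) (hxF _)
    obtain ⟨y1, y2⟩ := hB j (y (n j)) (hyF _)
    set a := θ (Function.update z (n j) (x (n j)))
    set b := θ (Function.update z (n j) (y (n j)))
    have e1 : ∑ i ∈ Finset.range (l j), |a i - b i| ^ q ≤ 2 ^ q * ((1 / 2) ^ j + (1 / 2) ^ j) :=
      sum_tri hq _ _ _ _ x1 (by rw [hsymm]; exact y1)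
    have e2 : ∑ i ∈ Finset.Ico (l j) (l (j + 1)), |a i - b i| ^ q ≤
        2 ^ q * (2 ^ q * (2 * (1 / 2 : ℝ) ^ j) +
        2 ^ q * ((∑ i ∈ Finset.Ico (l j) (l (j + 1)), |θ x i - θ y i| ^ q) +
          2 ^ q * (2 * (1 / 2) ^ j))) :=
      sum_tri hq _ _ _ _ (by rw [hsymm]; exact hA1 j) (sum_tri hq _ _ _ _ le_rfl (hA2 j))
    have e3 : ∑ i ∈ s.filter (fun i => l (j + 1) ≤ i), |a i - b i| ^ q ≤
        2 ^ q * ((1 / 2) ^ j + (1 / 2) ^ j) :=
      sum_tri hq _ _ _ _ (x2 _ fun i hi => (Finset.mem_filter.1 hi).2)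
        (by rw [hsymm]; exact y2 _ fun i hi => (Finset.mem_filter.1 hi).2)
    have e4 : ∑ i ∈ s, |a i - b i| ^ q ≤ ∑ i ∈ Finset.range (l j), |a i - b i| ^ q +
        ∑ i ∈ Finset.Ico (l j) (l (j + 1)), |a i - b i| ^ q +
        ∑ i ∈ s.filter (fun i => l (j + 1) ≤ i), |a i - b i| ^ q := by
      rw [← Finset.sum_filter_add_sum_filter_not s (fun i => l (j + 1) ≤ i), add_comm]
      gcongr
      rw [Finset.range_eq_Ico, Finset.sum_Ico_consecutive _ (Nat.zero_le _)
        (hl (Nat.lt_succ_self j)).le]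
      refine Finset.sum_le_sum_of_subset_of_nonneg (fun i hi => ?_) fun _ _ _ => by positivity
      rw [Finset.mem_filter, not_le] at hi
      rw [Finset.mem_Ico]
      exact ⟨Nat.zero_le _, hi.2⟩
    linarith
  · intro h
    have hs1 : Summable fun j => 2 ^ q * (2 ^ q * (2 * (1 / 2 : ℝ) ^ j) +
        2 ^ q * (Dk q θ z (n j) (x (n j)) (y (n j)) + 2 ^ q * (2 * (1 / 2) ^ j))) :=
      (((half_summable.mul_left 2).mul_left _).add
        ((h.add ((half_summable.mul_left 2).mul_left _)).mul_left _)).mul_left _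
    refine Summable.of_nonneg_of_le (fun j => Finset.sum_nonneg fun _ _ => by positivity)
      (fun j => ?_) hs1
    refine sum_tri hq _ _ _ _ (hA1 j) (sum_tri hq _ _ _ _ ?_ (by rw [hsymm]; exact hA2 j))
    exact (summable_update hfin z (n j) _ _).sum_le_tsum _ fun _ _ => by positivity

theorem pair_summable (f : ℕ → ℕ → ℝ) (hf : ∀ a i, 0 ≤ f a i) (M : ℕ → ℕ) :
    (Summable fun j : ℕ => if j.unpair.2 < M j.unpair.1 then f j.unpair.1 j.unpair.2 else 0) ↔
      Summable fun a => ∑ i ∈ Finset.range (M a), f a i := by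
  have h1 : (Summable fun p : ℕ × ℕ => if p.2 < M p.1 then f p.1 p.2 else 0) ↔
      (Summable fun j : ℕ => if j.unpair.2 < M j.unpair.1 then f j.unpair.1 j.unpair.2 else 0) := by
    rw [← Nat.pairEquiv.symm.summable_iff]
    rfl
  rw [← h1, summable_prod_of_nonneg]
  · have h2 : ∀ a, ∑' i, (if i < M a then f a i else 0) = ∑ i ∈ Finset.range (M a), f a i := by
      intro a
      rw [tsum_eq_sum (s := Finset.range (M a))]
      · refine Finset.sum_congr rfl fun i hi => ?_
        rw [if_pos (Finset.mem_range.1 hi)]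
      · intro i hi
        rw [Finset.mem_range] at hi
        rw [if_neg hi]
    simp only [h2]
    refine ⟨fun h => h.2, fun h => ⟨fun a => ?_, h⟩⟩
    refine summable_of_ne_finset_zero (s := Finset.range (M a)) fun i hi => ?_
    rw [Finset.mem_range] at hi
    rw [if_neg hi]
  · intro p
    change (0 : ℝ) ≤ if p.2 < M p.1 then f p.1 p.2 else 0
    split_ifs
    · exact hf _ _
    · exact le_rfl

section claims
variable {τ : ℕ → ℕ} {d : ℕ → ℕ → ℕ → ℝ}

theorem fin2_of (hd0 : ∀ t v, d t v v = 0)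
    (hθ : ∀ x y : Z, (Summable fun k => d (τ k) (x k) (y k)) ↔
      Summable fun i => |θ x i - θ y i| ^ q) : Fin2 q θ := by
  intro x y n h
  refine (hθ x y).1 (summable_of_ne_finset_zero (s := Finset.range n) fun k hk => ?_)
  rw [Finset.mem_range, not_lt] at hk
  rw [h k hk, hd0]

theorem select (hq : 0 < q) (hm : Measurable θ) (hd : ∀ t u v, 0 ≤ d t u v)
    (hd0 : ∀ t v, d t v v = 0)
    (hθ : ∀ x y : Z, (Summable fun k => d (τ k) (x k) (y k)) ↔
      Summable fun i => |θ x i - θ y i| ^ q) :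
    ∃ z : Z, ∀ (P : ℕ → Set ℕ) (u v : ℕ → ℕ → ℕ) (M : ℕ → ℕ), (∀ j, (P j).Infinite) →
      ∃ pos : ℕ → ℕ → ℕ, (∀ a i, pos a i ∈ P a) ∧
        ((Summable fun a => ∑ i ∈ Finset.range (M a),
            d (τ (pos a i)) (u a (pos a i)) (v a (pos a i))) ↔
          Summable fun a => ∑ i ∈ Finset.range (M a),
            Dk q θ z (pos a i) (u a (pos a i)) (v a (pos a i))) := by
  classical
  have hfin := fin2_of hd0 hθ
  obtain ⟨z, hz⟩ := additive hq hm hfin
  refine ⟨z, fun P u v M hP => ?_⟩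
  let F : ℕ → Finset ℕ := fun k => insert (z k)
    (((Finset.range (k + 1)).image fun j => u j.unpair.1 k) ∪
      ((Finset.range (k + 1)).image fun j => v j.unpair.1 k))
  obtain ⟨n, hn, hnP, hadd⟩ := hz F (fun j => P j.unpair.1) (fun k => Finset.mem_insert_self _ _)
    fun j => hP _
  let pt : (ℕ → ℕ → ℕ) → Z := fun w k =>
    if h : ∃ j, n j = k then
      (if h.choose.unpair.2 < M h.choose.unpair.1 then w h.choose.unpair.1 k else z k) else z k
  have hpt : ∀ w j, pt w (n j) = if j.unpair.2 < M j.unpair.1 then w j.unpair.1 (n j)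
      else z (n j) := by
    intro w j
    have h1 : ∃ i, n i = n j := ⟨j, rfl⟩
    have h2 : h1.choose = j := hn.injective h1.choose_spec
    simp only [pt]
    rw [dif_pos h1, h2]
  have hpt' : ∀ w k, k ∉ range n → pt w k = z k := fun w k hk => dif_neg hk
  have hle : ∀ j, j < n j + 1 := fun j => Nat.lt_succ_of_le (hn.id_le j)
  have hmem : ∀ w, (∀ j, w j.unpair.1 (n j) ∈ F (n j)) → ∀ k, pt w k ∈ F k := by
    intro w hw k
    by_cases h : k ∈ range n
    · obtain ⟨j, rfl⟩ := h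
      rw [hpt]
      split_ifs
      · exact hw j
      · exact Finset.mem_insert_self _ _
    · rw [hpt' w k h]
      exact Finset.mem_insert_self _ _
  have hu : ∀ k, pt u k ∈ F k := hmem u fun j =>
    Finset.mem_insert_of_mem (Finset.mem_union_left _
      (Finset.mem_image_of_mem (fun i => u i.unpair.1 (n j)) (Finset.mem_range.2 (hle j))))
  have hv : ∀ k, pt v k ∈ F k := hmem v fun j =>
    Finset.mem_insert_of_mem (Finset.mem_union_right _
      (Finset.mem_image_of_mem (fun i => v i.unpair.1 (n j)) (Finset.mem_range.2 (hle j))))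
  have h1 := hadd (pt u) (pt v) (hpt' u) (hpt' v) hu hv
  rw [← hθ] at h1
  refine ⟨fun a i => n (Nat.pair a i), fun a i => ?_, ?_⟩
  · have := hnP (Nat.pair a i)
    rwa [Nat.unpair_pair] at this
  · rw [← pair_summable (fun a i => d (τ (n (Nat.pair a i))) (u a (n (Nat.pair a i)))
      (v a (n (Nat.pair a i)))) (fun _ _ => hd _ _ _) M,
      ← pair_summable (fun a i => Dk q θ z (n (Nat.pair a i)) (u a (n (Nat.pair a i)))
      (v a (n (Nat.pair a i)))) (fun _ _ => Dk_nonneg _ _ _ _) M]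
    have e1 : (Summable fun k => d (τ k) (pt u k) (pt v k)) ↔ Summable fun j : ℕ =>
        if j.unpair.2 < M j.unpair.1 then d (τ (n (Nat.pair j.unpair.1 j.unpair.2)))
          (u j.unpair.1 (n (Nat.pair j.unpair.1 j.unpair.2)))
          (v j.unpair.1 (n (Nat.pair j.unpair.1 j.unpair.2))) else 0 := by
      rw [← hn.injective.summable_iff]
      · refine summable_congr fun j => ?_
        simp only [Function.comp]
        rw [hpt, hpt, Nat.pair_unpair]
        split_ifs
        · rfl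
        · exact hd0 _ _
      · intro k hk
        rw [hpt' u k hk, hpt' v k hk, hd0]
    have e2 : (Summable fun j => Dk q θ z (n j) (pt u (n j)) (pt v (n j))) ↔ Summable fun j : ℕ =>
        if j.unpair.2 < M j.unpair.1 then Dk q θ z (n (Nat.pair j.unpair.1 j.unpair.2))
          (u j.unpair.1 (n (Nat.pair j.unpair.1 j.unpair.2)))
          (v j.unpair.1 (n (Nat.pair j.unpair.1 j.unpair.2))) else 0 := by
      refine summable_congr fun j => ?_
      rw [hpt, hpt, Nat.pair_unpair]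
      split_ifs
      · rfl
      · unfold Dk
        simp [Real.zero_rpow hq.ne']
    rw [← e1, ← e2]
    exact h1

theorem pigeon {Q : Set ℕ} (hQ : Q.Infinite) (m : ℕ → ℕ) (B : ℕ) (hm : ∀ k ∈ Q, m k ≤ B) :
    ∃ M, {k | k ∈ Q ∧ m k = M}.Infinite := by
  by_contra hc
  push Not at hc
  refine hQ (Set.Finite.subset (s := ⋃ M ∈ Set.Iic B, {k | k ∈ Q ∧ m k = M}) ?_ ?_)
  · exact (Set.finite_Iic B).biUnion fun M _ => hc M
  · intro k hk
    simp only [mem_iUnion]
    exact ⟨m k, hm k hk, hk, rfl⟩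

theorem claims (hq : 0 < q) (hm : Measurable θ) (hd : ∀ t u v, 0 ≤ d t u v)
    (hd0 : ∀ t v, d t v v = 0)
    (hθ : ∀ x y : Z, (Summable fun k => d (τ k) (x k) (y k)) ↔
      Summable fun i => |θ x i - θ y i| ^ q) :
    ∃ (z : Z) (c C δ : ℝ), 0 < c ∧ 0 < C ∧ 0 < δ ∧ ∀ t κ, 0 < κ → ∃ k0, ∀ k, k0 ≤ k → τ k = t →
      ∀ u v, κ ≤ d t u v → (d t u v ≤ 1 → c * d t u v ≤ Dk q θ z k u v) ∧
        (d t u v ≤ δ → Dk q θ z k u v ≤ C * d t u v) := by
  classical
  obtain ⟨z, hz⟩ := select hq hm hd hd0 hθ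
  -- lower estimate
  have hlow : ∃ c : ℝ, 0 < c ∧ ∀ t κ, 0 < κ → ∃ k0, ∀ k, k0 ≤ k → τ k = t →
      ∀ u v, κ ≤ d t u v → d t u v ≤ 1 → c * d t u v ≤ Dk q θ z k u v := by
    by_contra hc
    push Not at hc
    have h1 : ∀ a : ℕ, ∃ (t : ℕ) (κ : ℝ), 0 < κ ∧ ∀ k0, ∃ k, k0 ≤ k ∧ τ k = t ∧ ∃ u v,
        κ ≤ d t u v ∧ d t u v ≤ 1 ∧ Dk q θ z k u v < (1 / 2) ^ a * d t u v :=
      fun a => hc ((1 / 2) ^ a) (by positivity)
    choose t κ hκ h2 using h1
    let Q : ℕ → Set ℕ := fun a => {k | τ k = t a ∧ ∃ u v, κ a ≤ d (t a) u v ∧ d (t a) u v ≤ 1 ∧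
      Dk q θ z k u v < (1 / 2) ^ a * d (t a) u v}
    have hQ : ∀ a, (Q a).Infinite := by
      intro a
      rw [Set.infinite_iff_exists_gt]
      intro N
      obtain ⟨k, hk, hk'⟩ := h2 a (N + 1)
      exact ⟨k, hk', by omega⟩
    have h3 : ∀ a k, ∃ u v, k ∈ Q a → κ a ≤ d (t a) u v ∧ d (t a) u v ≤ 1 ∧
        Dk q θ z k u v < (1 / 2) ^ a * d (t a) u v := by
      intro a k
      by_cases h : k ∈ Q a
      · obtain ⟨-, u, v, h4⟩ := h
        exact ⟨u, v, fun _ => h4⟩
      · exact ⟨0, 0, fun h' => absurd h' h⟩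
    choose u v huv using h3
    have h4 : ∀ a, ∃ M, {k | k ∈ Q a ∧ ⌈1 / d (t a) (u a k) (v a k)⌉₊ = M}.Infinite := by
      intro a
      refine pigeon (hQ a) _ ⌈1 / κ a⌉₊ fun k hk => ?_
      exact Nat.ceil_mono (one_div_le_one_div_of_le (hκ a) (huv a k hk).1)
    choose M hM using h4
    obtain ⟨pos, hpos, hiff⟩ := hz _ u v M hM
    have hval : ∀ a i, τ (pos a i) = t a := fun a i => (hpos a i).1.1
    have key : ∀ a i, (M a : ℝ) * d (t a) (u a (pos a i)) (v a (pos a i)) ≤ 2 ∧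
        1 ≤ (M a : ℝ) * d (t a) (u a (pos a i)) (v a (pos a i)) := by
      intro a i
      obtain ⟨h5, h6⟩ := hpos a i
      obtain ⟨h7, h8, -⟩ := huv a _ h5
      have h9 : 0 < d (t a) (u a (pos a i)) (v a (pos a i)) := (hκ a).trans_le h7
      rw [← h6]
      constructor
      · have h10 := (Nat.ceil_lt_add_one (show 0 ≤ 1 / d (t a) (u a (pos a i)) (v a (pos a i)) by
          positivity)).le
        calc _ ≤ (1 / d (t a) (u a (pos a i)) (v a (pos a i)) + 1) *
              d (t a) (u a (pos a i)) (v a (pos a i)) := by gcongr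
          _ = 1 + d (t a) (u a (pos a i)) (v a (pos a i)) := by field_simp
          _ ≤ 2 := by linarith
      · have h10 := Nat.le_ceil (1 / d (t a) (u a (pos a i)) (v a (pos a i)))
        calc (1 : ℝ) = 1 / d (t a) (u a (pos a i)) (v a (pos a i)) *
              d (t a) (u a (pos a i)) (v a (pos a i)) := by field_simp
          _ ≤ _ := by gcongr
    have hMpos : ∀ a, 0 < M a := by
      intro a
      rcases Nat.eq_zero_or_pos (M a) with h | h
      · have := (key a 0).2
        rw [h] at this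
        norm_num at this
      · exact h
    have h5 : Summable fun a => ∑ i ∈ Finset.range (M a),
        Dk q θ z (pos a i) (u a (pos a i)) (v a (pos a i)) := by
      refine Summable.of_nonneg_of_le (fun a => Finset.sum_nonneg fun _ _ => Dk_nonneg _ _ _ _)
        (fun a => ?_) (half_summable.mul_left 2)
      have hMa : (0 : ℝ) < M a := by exact_mod_cast hMpos a
      calc ∑ i ∈ Finset.range (M a), Dk q θ z (pos a i) (u a (pos a i)) (v a (pos a i))
          ≤ ∑ i ∈ Finset.range (M a), (1 / 2) ^ a * (2 / (M a : ℝ)) := by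
            refine Finset.sum_le_sum fun i _ => ?_
            have h6 := (huv a _ (hpos a i).1).2.2.le
            refine h6.trans (mul_le_mul_of_nonneg_left ?_ (by positivity))
            rw [le_div_iff₀ hMa, mul_comm]
            exact (key a i).1
        _ = 2 * (1 / 2) ^ a := by
            rw [Finset.sum_const, Finset.card_range, nsmul_eq_mul]
            field_simp
    have h6 := hiff.2 h5
    have h7 : ∀ a, 1 ≤ ∑ i ∈ Finset.range (M a),
        d (τ (pos a i)) (u a (pos a i)) (v a (pos a i)) := by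
      intro a
      have hMa : (0 : ℝ) < M a := by exact_mod_cast hMpos a
      calc (1 : ℝ) = ∑ i ∈ Finset.range (M a), 1 / (M a : ℝ) := by
            rw [Finset.sum_const, Finset.card_range, nsmul_eq_mul]
            field_simp
        _ ≤ _ := by
            refine Finset.sum_le_sum fun i _ => ?_
            rw [hval, div_le_iff₀ hMa, mul_comm]
            exact (key a i).2
    have h8 := h6.tendsto_atTop_zero
    obtain ⟨a, ha⟩ := ((tendsto_order.1 h8).2 1 one_pos).exists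
    exact absurd ha (not_lt.2 (h7 a))
  -- upper estimate
  have hupp : ∃ C δ : ℝ, 0 < C ∧ 0 < δ ∧ ∀ t κ, 0 < κ → ∃ k0, ∀ k, k0 ≤ k → τ k = t →
      ∀ u v, κ ≤ d t u v → d t u v ≤ δ → Dk q θ z k u v ≤ C * d t u v := by
    by_contra hc
    push Not at hc
    have h1 : ∀ a : ℕ, ∃ (t : ℕ) (κ : ℝ), 0 < κ ∧ ∀ k0, ∃ k, k0 ≤ k ∧ τ k = t ∧ ∃ u v,
        κ ≤ d t u v ∧ d t u v ≤ (1 / 2) ^ a ∧ 4 ^ a * d t u v < Dk q θ z k u v :=
      fun a => hc (4 ^ a) ((1 / 2) ^ a) (by positivity) (by positivity)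
    choose t κ hκ h2 using h1
    let Q : ℕ → Set ℕ := fun a => {k | τ k = t a ∧ ∃ u v, κ a ≤ d (t a) u v ∧
      d (t a) u v ≤ (1 / 2) ^ a ∧ 4 ^ a * d (t a) u v < Dk q θ z k u v}
    have hQ : ∀ a, (Q a).Infinite := by
      intro a
      rw [Set.infinite_iff_exists_gt]
      intro N
      obtain ⟨k, hk, hk'⟩ := h2 a (N + 1)
      exact ⟨k, hk', by omega⟩
    have h3 : ∀ a k, ∃ u v, k ∈ Q a → κ a ≤ d (t a) u v ∧ d (t a) u v ≤ (1 / 2) ^ a ∧
        4 ^ a * d (t a) u v < Dk q θ z k u v := by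
      intro a k
      by_cases h : k ∈ Q a
      · obtain ⟨-, u, v, h4⟩ := h
        exact ⟨u, v, fun _ => h4⟩
      · exact ⟨0, 0, fun h' => absurd h' h⟩
    choose u v huv using h3
    have h4 : ∀ a, ∃ M, {k | k ∈ Q a ∧ ⌈(1 / 2) ^ a / d (t a) (u a k) (v a k)⌉₊ = M}.Infinite := by
      intro a
      refine pigeon (hQ a) _ ⌈(1 / 2) ^ a / κ a⌉₊ fun k hk => ?_
      exact Nat.ceil_mono (div_le_div_of_nonneg_left (by positivity) (hκ a) (huv a k hk).1)
    choose M hM using h4
    obtain ⟨pos, hpos, hiff⟩ := hz _ u v M hM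
    have hval : ∀ a i, τ (pos a i) = t a := fun a i => (hpos a i).1.1
    have key : ∀ a i, (M a : ℝ) * d (t a) (u a (pos a i)) (v a (pos a i)) ≤ 2 * (1 / 2) ^ a ∧
        (1 / 2) ^ a ≤ (M a : ℝ) * d (t a) (u a (pos a i)) (v a (pos a i)) := by
      intro a i
      obtain ⟨h5, h6⟩ := hpos a i
      obtain ⟨h7, h8, -⟩ := huv a _ h5
      have h9 : 0 < d (t a) (u a (pos a i)) (v a (pos a i)) := (hκ a).trans_le h7
      rw [← h6]
      constructor
      · have h10 := (Nat.ceil_lt_add_one (show 0 ≤ (1 / 2) ^ a /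
          d (t a) (u a (pos a i)) (v a (pos a i)) by positivity)).le
        calc _ ≤ ((1 / 2) ^ a / d (t a) (u a (pos a i)) (v a (pos a i)) + 1) *
              d (t a) (u a (pos a i)) (v a (pos a i)) := by gcongr
          _ = (1 / 2) ^ a + d (t a) (u a (pos a i)) (v a (pos a i)) := by field_simp
          _ ≤ 2 * (1 / 2) ^ a := by linarith
      · have h10 := Nat.le_ceil ((1 / 2) ^ a / d (t a) (u a (pos a i)) (v a (pos a i)))
        calc ((1 : ℝ) / 2) ^ a = (1 / 2) ^ a / d (t a) (u a (pos a i)) (v a (pos a i)) *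
              d (t a) (u a (pos a i)) (v a (pos a i)) := by field_simp
          _ ≤ _ := by gcongr
    have hMpos : ∀ a, 0 < M a := by
      intro a
      rcases Nat.eq_zero_or_pos (M a) with h | h
      · have := (key a 0).2
        rw [h] at this
        have h2 : (0 : ℝ) < (1 / 2) ^ a := by positivity
        simp only [Nat.cast_zero, zero_mul] at this
        linarith
      · exact h
    have h5 : Summable fun a => ∑ i ∈ Finset.range (M a),
        d (τ (pos a i)) (u a (pos a i)) (v a (pos a i)) := by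
      refine Summable.of_nonneg_of_le (fun a => Finset.sum_nonneg fun _ _ => hd _ _ _)
        (fun a => ?_) (half_summable.mul_left 2)
      have hMa : (0 : ℝ) < M a := by exact_mod_cast hMpos a
      calc ∑ i ∈ Finset.range (M a), d (τ (pos a i)) (u a (pos a i)) (v a (pos a i))
          ≤ ∑ i ∈ Finset.range (M a), 2 * (1 / 2) ^ a / (M a : ℝ) := by
            refine Finset.sum_le_sum fun i _ => ?_
            rw [hval, le_div_iff₀ hMa, mul_comm]
            exact (key a i).1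
        _ = 2 * (1 / 2) ^ a := by
            rw [Finset.sum_const, Finset.card_range, nsmul_eq_mul]
            field_simp
    have h6 := hiff.1 h5
    have h7 : ∀ a, 1 ≤ ∑ i ∈ Finset.range (M a),
        Dk q θ z (pos a i) (u a (pos a i)) (v a (pos a i)) := by
      intro a
      have hMa : (0 : ℝ) < M a := by exact_mod_cast hMpos a
      have h9 : (4 : ℝ) ^ a * (1 / 2) ^ a = 2 ^ a := by
        rw [← mul_pow]; norm_num
      calc (1 : ℝ) ≤ 2 ^ a := one_le_pow₀ (by norm_num)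
        _ = ∑ i ∈ Finset.range (M a), 4 ^ a * ((1 / 2) ^ a / (M a : ℝ)) := by
            rw [Finset.sum_const, Finset.card_range, nsmul_eq_mul, ← h9]
            field_simp
        _ ≤ _ := by
            refine Finset.sum_le_sum fun i _ => ?_
            have h10 := (huv a _ (hpos a i).1).2.2.le
            refine le_trans (mul_le_mul_of_nonneg_left ?_ (by positivity)) h10
            rw [div_le_iff₀ hMa, mul_comm]
            exact (key a i).2
    have h8 := h6.tendsto_atTop_zero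
    obtain ⟨a, ha⟩ := ((tendsto_order.1 h8).2 1 one_pos).exists
    exact absurd ha (not_lt.2 (h7 a))
  obtain ⟨c, hc, hc'⟩ := hlow
  obtain ⟨C, δ, hC, hδ, hC'⟩ := hupp
  refine ⟨z, c, C, δ, hc, hC, hδ, fun t κ hκ => ?_⟩
  obtain ⟨k1, h1⟩ := hc' t κ hκ
  obtain ⟨k2, h2⟩ := hC' t κ hκ
  refine ⟨max k1 k2, fun k hk hkt u v huv => ⟨fun h => ?_, fun h => ?_⟩⟩
  · exact h1 k ((le_max_left _ _).trans hk) hkt u v huv h
  · exact h2 k ((le_max_right _ _).trans hk) hkt u v huv h

/-- the main consequence of a Borel reduction to `R^N / l^q` -/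
theorem uniform_maps (hq : 0 < q) (hm : Measurable θ) (hd : ∀ t u v, 0 ≤ d t u v)
    (hd0 : ∀ t v, d t v v = 0) (hτ : ∀ t N, ∃ k, N ≤ k ∧ τ k = t)
    (hθ : ∀ x y : Z, (Summable fun k => d (τ k) (x k) (y k)) ↔
      Summable fun i => |θ x i - θ y i| ^ q) :
    ∃ c C δ : ℝ, 0 < c ∧ 0 < C ∧ 0 < δ ∧ ∀ t κ, 0 < κ → ∃ φ : ℕ → ℕ → ℝ,
      (∀ u v, Summable fun i => |φ u i - φ v i| ^ q) ∧
      ∀ u v, κ ≤ d t u v → (d t u v ≤ 1 → c * d t u v ≤ ∑' i, |φ u i - φ v i| ^ q) ∧
        (d t u v ≤ δ → ∑' i, |φ u i - φ v i| ^ q ≤ C * d t u v) := by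
  obtain ⟨z, c, C, δ, hc, hC, hδ, h⟩ := claims hq hm hd hd0 hθ
  refine ⟨c, C, δ, hc, hC, hδ, fun t κ hκ => ?_⟩
  obtain ⟨k0, hk0⟩ := h t κ hκ
  obtain ⟨k, hk, hkt⟩ := hτ t k0
  exact ⟨fun u => θ (Function.update z k u), fun u v => summable_update (fin2_of hd0 hθ) z k u v,
    fun u v huv => hk0 k hk hkt u v huv⟩

end claims

end Pool.Agent.Helper72K
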