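import Pool.Agent.Helper72K.Gen

/-!
# Fusion on the Baire space
-/

set_option autoImplicit false

open Filter Topology Set MeasureTheory

namespace Pool.Agent.Helper72K

/-- the sums of the powers of the differences beyond `l` are at most `X` -/
def Tl (q : ℝ) (l : ℕ) (a b : ℕ → ℝ) (X : ℝ) : Prop :=
  ∀ s : Finset ℕ, (∀ i ∈ s, l ≤ i) → ∑ i ∈ s, |a i - b i| ^ q ≤ X

theorem Tl_of_summable {q : ℝ} {a b : ℕ → ℝ} (h : Summable fun i => |a i - b i| ^ q) {ε : ℝ}
    (hε : 0 < ε) : ∃ L, ∀ l, L ≤ l → Tl q l a b ε := by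
  obtain ⟨s, hs⟩ := summable_iff_vanishing_norm.1 h ε hε
  obtain ⟨M, hM⟩ := s.bddAbove
  refine ⟨M + 1, fun l hl t ht => ?_⟩
  have h1 : Disjoint t s := by
    rw [Finset.disjoint_left]
    intro i hi his
    have h2 := ht i hi
    have h3 := hM his
    omega
  have h2 := hs t h1
  rw [Real.norm_eq_abs] at h2
  exact (le_abs_self _).trans h2.le

theorem exists_sup {α : Type} (S : Finset α) (Q : α → ℕ → Prop)
    (hmono : ∀ a N N', N ≤ N' → Q a N → Q a N') (h : ∀ a ∈ S, ∃ N, Q a N) :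
    ∃ N, ∀ a ∈ S, Q a N := by
  classical
  induction S using Finset.induction_on with
  | empty => exact ⟨0, fun a ha => absurd ha (Finset.notMem_empty a)⟩
  | insert a S ha ih =>
    obtain ⟨N, hN⟩ := ih fun b hb => h b (Finset.mem_insert_of_mem hb)
    obtain ⟨N', hN'⟩ := h a (Finset.mem_insert_self a S)
    refine ⟨max N N', fun b hb => ?_⟩
    rcases Finset.mem_insert.1 hb with rfl | hb
    · exact hmono _ _ _ (le_max_right _ _) hN'
    · exact hmono _ _ _ (le_max_left _ _) (hN b hb)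

variable {q : ℝ} {θ : Z → ℕ → ℝ}

/-- insensitivity of the tail beyond `l` to a change of the first `n` coordinates -/
def TT (q : ℝ) (θ : Z → ℕ → ℝ) (n : ℕ) (u v : Fin n → ℕ) (l : ℕ) : Set Z :=
  {x | Tl q l (θ (md n u x)) (θ (md n v x)) ((1 / 2) ^ n)}

theorem measurable_TT (hm : Measurable θ) (n : ℕ) (u v : Fin n → ℕ) (l : ℕ) :
    MeasurableSet (TT q θ n u v l) := by
  have h1 : TT q θ n u v l = ⋂ s : Finset ℕ, ⋂ _ : ∀ i ∈ s, l ≤ i,
      {x | ∑ i ∈ s, |θ (md n u x) i - θ (md n v x) i| ^ q ≤ (1 / 2) ^ n} := by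
    ext x; simp [TT, Tl]
  rw [h1]
  refine MeasurableSet.iInter fun s => MeasurableSet.iInter fun _ => ?_
  have h2 : ∀ (u : Fin n → ℕ) (i : ℕ), Measurable fun x => θ (md n u x) i := fun u i =>
    (measurable_pi_apply i).comp (hm.comp (continuous_md n u).measurable)
  have h3 : Measurable fun x => ∑ i ∈ s, |θ (md n u x) i - θ (md n v x) i| ^ q := by
    refine Finset.measurable_fun_sum _ fun i _ => ?_
    have h4 := (h2 u i).sub (h2 v i)
    have h5 : Measurable fun x => |θ (md n u x) i - θ (md n v x) i| :=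
      continuous_abs.measurable.comp h4
    exact h5.pow_const q
  exact h3 measurableSet_Iic

theorem exists_decide (hm : Measurable θ) :
    ∃ G0 ∈ residual Z,
      (∀ (n : ℕ) (u v : Fin n → ℕ) (l : ℕ), ∀ x ∈ G0, x ∈ TT q θ n u v l →
        ∃ N, ∀ x' ∈ G0, agz N x x' → x' ∈ TT q θ n u v l) ∧
      (∀ (i : ℕ) (ε : ℝ), 0 < ε → ∀ x ∈ G0, ∃ N, ∀ x' ∈ G0, agz N x x' →
        |θ x' i - θ x i| < ε) := by
  let S : (Σ n : ℕ, (Fin n → ℕ) × (Fin n → ℕ) × ℕ) ⊕ (ℕ × ℚ × ℚ) → Set Z := fun p =>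
    match p with
    | Sum.inl p => TT q θ p.1 p.2.1 p.2.2.1 p.2.2.2
    | Sum.inr p => {x | (p.2.1 : ℝ) < θ x p.1 ∧ θ x p.1 < (p.2.2 : ℝ)}
  have hS : ∀ p, MeasurableSet (S p) := by
    rintro (p | p)
    · exact measurable_TT hm _ _ _ _
    · have h1 : Measurable fun x => θ x p.1 := (measurable_pi_apply p.1).comp hm
      exact (h1 measurableSet_Ioi).inter (h1 measurableSet_Iio)
  obtain ⟨G, hG, hG'⟩ := decide_gen S hS
  refine ⟨G, hG, fun n u v l x hx hxB => hG' (Sum.inl ⟨n, u, v, l⟩) x hx hxB, ?_⟩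
  intro i ε hε x hx
  obtain ⟨q1, h1, h2⟩ := exists_rat_btwn (show θ x i - ε / 2 < θ x i by linarith)
  obtain ⟨q2, h3, h4⟩ := exists_rat_btwn (show θ x i < θ x i + ε / 2 by linarith)
  obtain ⟨N, hN⟩ := hG' (Sum.inr (i, q1, q2)) x hx ⟨h2, h3⟩
  refine ⟨N, fun x' hx' h => ?_⟩
  obtain ⟨h5, h6⟩ := hN x' hx' h
  simp only at h5 h6
  rw [abs_lt]
  constructor <;> linarith

/-- points equivalent below a level have summable differences -/
def Fin2 (q : ℝ) (θ : Z → ℕ → ℝ) : Prop :=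
  ∀ (x y : Z) (n : ℕ), (∀ k, n ≤ k → x k = y k) → Summable fun i => |θ x i - θ y i| ^ q

theorem step (hq : 0 < q) (hfin : Fin2 q θ)
    {G0 : Set Z} {O : ℕ → Set Z} (hOo : ∀ r, IsOpen (O r)) (hO : (⋂ r, O r) ⊆ G0)
    (hB : ∀ (n : ℕ) (u v : Fin n → ℕ) (l : ℕ), ∀ x ∈ G0, x ∈ TT q θ n u v l →
        ∃ N, ∀ x' ∈ G0, agz N x x' → x' ∈ TT q θ n u v l)
    (hT : ∀ (i : ℕ) (ε : ℝ), 0 < ε → ∀ x ∈ G0, ∃ N, ∀ x' ∈ G0, agz N x x' → |θ x' i - θ x i| < ε)
    (z : Z) (hz : ∀ n, ∀ u : Fin n → ℕ, md n u z ∈ ⋂ r, O r) (F : ℕ → Finset ℕ)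
    (b l0 r : ℕ) :
    ∃ l N, l0 < l ∧ b ≤ N ∧
      (∀ x : Z, (∀ k, k < b → x k ∈ F k) → (∀ k, b ≤ k → k < N → x k = z k) →
        ∀ r' ≤ r, x ∈ O r') ∧
      (∀ x : Z, md b (fun j => z j) x ∈ G0 → (∀ k, b ≤ k → k < N → x k = z k) →
        ∀ u v : Fin b → ℕ, (∀ k : Fin b, u k ∈ F k) → (∀ k : Fin b, v k ∈ F k) →
          Tl q l (θ (md b u x)) (θ (md b v x)) ((1 / 2) ^ b)) ∧
      (∀ x ∈ G0, ∀ y ∈ G0, (∀ k, k < b → x k ∈ F k) → (∀ k, b ≤ k → k < N → x k = z k) →
        agz N x y → ∀ i < l, |θ x i - θ y i| ^ q ≤ (1 / 2) ^ b / (l + 1)) := by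
  classical
  set S : Finset (Fin b → ℕ) := Fintype.piFinset fun k : Fin b => F k with hS
  have hSm : ∀ u : Fin b → ℕ, u ∈ S ↔ ∀ k : Fin b, u k ∈ F k := fun u => Fintype.mem_piFinset
  have hzG : z ∈ G0 := by
    have := hz b (fun j => z j)
    rw [md_self] at this
    exact hO this
  -- the level
  obtain ⟨l1, hl1⟩ : ∃ l1, ∀ p ∈ S ×ˢ S, ∀ l, l1 ≤ l → z ∈ TT q θ b p.1 p.2 l := by
    refine exists_sup (S ×ˢ S) (fun p L => ∀ l, L ≤ l → z ∈ TT q θ b p.1 p.2 l)
      (fun a N N' hN h l hl => h l (hN.trans hl)) fun p _ => ?_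
    change ∃ N, ∀ l, N ≤ l → Tl q l (θ (md b p.1 z)) (θ (md b p.2 z)) ((1 / 2) ^ b)
    refine Tl_of_summable (hfin _ _ b fun k hk => ?_) (by positivity)
    rw [md_ge _ _ (not_lt.2 hk), md_ge _ _ (not_lt.2 hk)]
  set l := max l1 (l0 + 1) with hl
  obtain ⟨N1, hN1⟩ : ∃ N1, ∀ p ∈ S ×ˢ S, ∀ x' ∈ G0, agz N1 z x' → x' ∈ TT q θ b p.1 p.2 l := by
    refine exists_sup (S ×ˢ S) (fun p N => ∀ x' ∈ G0, agz N z x' → x' ∈ TT q θ b p.1 p.2 l)
      (fun a N N' hN h x' hx' hag => h x' hx' fun k hk => hag k (hk.trans_le hN)) fun p hp => ?_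
    exact hB b p.1 p.2 l z hzG (hl1 p hp l (le_max_left _ _))
  -- open sets
  obtain ⟨N2, hN2⟩ : ∃ N2, ∀ p ∈ S ×ˢ Finset.range (r + 1), ∀ x, agz N2 (md b p.1 z) x →
      x ∈ O p.2 := by
    refine exists_sup (S ×ˢ Finset.range (r + 1)) (fun p N => ∀ x, agz N (md b p.1 z) x → x ∈ O p.2)
      (fun a N N' hN h x hag => h x fun k hk => hag k (hk.trans_le hN)) fun p hp => ?_
    exact exists_agz_of_nhds _ _ ((hOo p.2).mem_nhds (mem_iInter.1 (hz b p.1) p.2))
  -- continuity
  set ε : ℝ := ((1 / 2) ^ b / (l + 1)) ^ (1 / q) / 2 with hεd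
  have hX : (0 : ℝ) < (1 / 2) ^ b / (l + 1) := by positivity
  have hε : 0 < ε := by positivity
  obtain ⟨N3, hN3⟩ : ∃ N3, ∀ p ∈ S ×ˢ Finset.range l, ∀ x' ∈ G0, agz N3 (md b p.1 z) x' →
      |θ x' p.2 - θ (md b p.1 z) p.2| < ε := by
    refine exists_sup (S ×ˢ Finset.range l) (fun p N => ∀ x' ∈ G0, agz N (md b p.1 z) x' →
      |θ x' p.2 - θ (md b p.1 z) p.2| < ε)
      (fun a N N' hN h x' hx' hag => h x' hx' fun k hk => hag k (hk.trans_le hN)) fun p hp => ?_
    exact hT p.2 _ hε _ (hO (hz b p.1))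
  have hag : ∀ (N : ℕ) (x : Z), (∀ k, b ≤ k → k < N → x k = z k) →
      agz N (md b (fun j => x j) z) x := by
    intro N x hx k hk
    by_cases h : k < b
    · rw [md_lt _ _ h]
    · rw [md_ge _ _ h, hx k (not_lt.1 h) hk]
  refine ⟨l, max (max N1 b) (max N2 N3), lt_of_lt_of_le (Nat.lt_succ_self l0) (le_max_right _ _),
    (le_max_right _ _).trans (le_max_left _ _), ?_, ?_, ?_⟩
  · intro x hxF hx r' hr'
    have h4 := hN2 (fun j => x j, r') (by
      rw [Finset.mem_product, hSm, Finset.mem_range]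
      exact ⟨fun k => hxF k k.2, Nat.lt_succ_of_le hr'⟩) x
    exact h4 fun k hk => hag _ x hx k (hk.trans_le ((le_max_left _ _).trans (le_max_right _ _)))
  · intro x hxG hx u v hu hv
    have h4 : md b (fun j => z j) x ∈ TT q θ b u v l := by
      refine hN1 (u, v) (by rw [Finset.mem_product, hSm, hSm]; exact ⟨hu, hv⟩) _ hxG
        fun k hk => ?_
      by_cases h : k < b
      · rw [md_lt _ _ h]
      · rw [md_ge _ _ h, hx k (not_lt.1 h)
          (hk.trans_le ((le_max_left _ _).trans (le_max_left _ _)))]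
    unfold TT at h4
    rw [Set.mem_ofPred_eq, md_md, md_md] at h4
    exact h4
  · intro x hx y hy hxF hxz hxy i hi
    have hmem : ((fun j : Fin b => x j), i) ∈ S ×ˢ Finset.range l := by
      rw [Finset.mem_product, hSm, Finset.mem_range]
      exact ⟨fun k => hxF k k.2, hi⟩
    have hb : N3 ≤ max (max N1 b) (max N2 N3) := (le_max_right _ _).trans (le_max_right _ _)
    have h6 := hN3 _ hmem x hx fun k hk => hag _ x hxz k (hk.trans_le hb)
    have h7 := hN3 _ hmem y hy fun k hk =>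
      (hag _ x hxz k (hk.trans_le hb)).trans (hxy k (hk.trans_le hb))
    simp only at h6 h7
    have h8 : |θ x i - θ y i| ≤ ((1 / 2) ^ b / (l + 1)) ^ (1 / q) := by
      have h9 : θ x i - θ y i = (θ x i - θ (md b (fun j => x j) z) i) -
          (θ y i - θ (md b (fun j => x j) z) i) := by ring
      rw [h9]
      have h10 := abs_sub (θ x i - θ (md b (fun j => x j) z) i)
        (θ y i - θ (md b (fun j => x j) z) i)
      linarith
    calc |θ x i - θ y i| ^ q ≤ (((1 / 2) ^ b / (l + 1)) ^ (1 / q)) ^ q :=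
          Real.rpow_le_rpow (abs_nonneg _) h8 hq.le
      _ = (1 / 2) ^ b / (l + 1) := by
          rw [← Real.rpow_mul hX.le, one_div_mul_cancel hq.ne', Real.rpow_one]

theorem abs_add_rpow_le (hq : 0 < q) (a b : ℝ) : |a + b| ^ q ≤ 2 ^ q * (|a| ^ q + |b| ^ q) := by
  have h1 : |a + b| ≤ 2 * max |a| |b| := by
    have := abs_add_le a b
    have h2 := le_max_left |a| |b|
    have h3 := le_max_right |a| |b|
    linarith
  have h0 : 0 ≤ max |a| |b| := (abs_nonneg a).trans (le_max_left _ _)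
  calc |a + b| ^ q ≤ (2 * max |a| |b|) ^ q := Real.rpow_le_rpow (abs_nonneg _) h1 hq.le
    _ = 2 ^ q * (max |a| |b|) ^ q := Real.mul_rpow (by norm_num) h0
    _ ≤ 2 ^ q * (|a| ^ q + |b| ^ q) := by
        apply mul_le_mul_of_nonneg_left _ (by positivity)
        rcases max_cases |a| |b| with h | h <;> rw [h.1]
        · have : 0 ≤ |b| ^ q := by positivity
          linarith
        · have : 0 ≤ |a| ^ q := by positivity
          linarith

theorem sum_tri (hq : 0 < q) (s : Finset ℕ) (a b c : ℕ → ℝ) {X Y : ℝ}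
    (h1 : ∑ i ∈ s, |a i - b i| ^ q ≤ X) (h2 : ∑ i ∈ s, |b i - c i| ^ q ≤ Y) :
    ∑ i ∈ s, |a i - c i| ^ q ≤ 2 ^ q * (X + Y) := by
  calc ∑ i ∈ s, |a i - c i| ^ q ≤ ∑ i ∈ s, 2 ^ q * (|a i - b i| ^ q + |b i - c i| ^ q) := by
        refine Finset.sum_le_sum fun i _ => ?_
        have h3 : a i - c i = (a i - b i) + (b i - c i) := by ring
        rw [h3]
        exact abs_add_rpow_le hq _ _
    _ = 2 ^ q * (∑ i ∈ s, |a i - b i| ^ q + ∑ i ∈ s, |b i - c i| ^ q) := by
        rw [← Finset.mul_sum, Finset.sum_add_distrib]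
    _ ≤ 2 ^ q * (X + Y) := by
        apply mul_le_mul_of_nonneg_left _ (by positivity)
        linarith

theorem fusion (hq : 0 < q) (hm : Measurable θ) (hfin : Fin2 q θ) :
    ∃ z : Z, ∀ (F : ℕ → Finset ℕ) (P : ℕ → Set ℕ), (∀ k, z k ∈ F k) → (∀ j, (P j).Infinite) →
    ∃ (n l : ℕ → ℕ), StrictMono n ∧ StrictMono l ∧ (∀ j, n j ∈ P j) ∧
      (∀ x : Z, (∀ k, k ∉ range n → x k = z k) → (∀ k, x k ∈ F k) → ∀ j,
        ∑ i ∈ Finset.Ico (l j) (l (j + 1)),
          |θ x i - θ (Function.update z (n j) (x (n j))) i| ^ q ≤ 2 ^ q * (2 * (1 / 2) ^ j)) ∧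
      (∀ j, ∀ u ∈ F (n j),
        ∑ i ∈ Finset.range (l j), |θ (Function.update z (n j) u) i - θ z i| ^ q ≤ (1 / 2) ^ j ∧
        Tl q (l (j + 1)) (θ (Function.update z (n j) u)) (θ z) ((1 / 2) ^ j)) := by
  obtain ⟨G0, hG0, hB, hT⟩ := exists_decide (q := q) hm
  obtain ⟨O, hOo, hO, hOr⟩ := exists_open_seq hG0
  have hres := residual_md hOr
  obtain ⟨z, hz⟩ := (dense_of_mem_residual hres).nonempty
  refine ⟨z, fun F P hF hP => ?_⟩
  have hst := step hq hfin hOo hO hB hT z hz F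
  choose Lf Nf h1 h2 h3 h4 h5 using hst
  have hP' : ∀ j N, ∃ k, N ≤ k ∧ k ∈ P j := fun j N => by
    obtain ⟨k, hk, hk'⟩ := (hP j).exists_gt N
    exact ⟨k, hk'.le, hk⟩
  choose pos hp1 hp2 using hP'
  let st : ℕ → ℕ × ℕ := fun j => Nat.rec (0, 0)
    (fun j s => (pos j (Nf s.1 s.2 j) + 1, Lf s.1 s.2 j)) j
  let b : ℕ → ℕ := fun j => (st j).1
  let lp : ℕ → ℕ := fun j => (st j).2
  let n : ℕ → ℕ := fun j => pos j (Nf (b j) (lp j) j)
  have hb : ∀ j, b (j + 1) = n j + 1 := fun j => rfl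
  have hlp : ∀ j, lp (j + 1) = Lf (b j) (lp j) j := fun j => rfl
  have hnN : ∀ j, Nf (b j) (lp j) j ≤ n j := fun j => hp1 _ _
  have hNb : ∀ j, b j ≤ Nf (b j) (lp j) j := fun j => h2 _ _ _
  have hbn : ∀ j, b j ≤ n j := fun j => (hNb j).trans (hnN j)
  have hn : StrictMono n := strictMono_nat_of_lt_succ fun j => by
    have := hbn (j + 1)
    rw [hb] at this
    exact this
  have hlpm : StrictMono lp := strictMono_nat_of_lt_succ fun j => by
    rw [hlp]
    exact h1 _ _ _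
  have hbj : ∀ j, j ≤ b j := by
    intro j
    induction j with
    | zero => exact Nat.zero_le _
    | succ j ih =>
      rw [hb]
      have := hbn j
      omega
  have hbm : ∀ i j, i < j → n i < b j := by
    intro i j hij
    obtain ⟨k, rfl⟩ : ∃ k, j = k + 1 := ⟨j - 1, by omega⟩
    rw [hb]
    exact Nat.lt_succ_of_le (hn.monotone (by omega))
  -- points of the subproduct
  have hcond : ∀ x : Z, (∀ k, k ∉ range n → x k = z k) → ∀ j, ∀ k, b j ≤ k →
      k < Nf (b j) (lp j) j → x k = z k := by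
    intro x hx j k h6 h7
    apply hx
    rintro ⟨i, rfl⟩
    by_cases hij : i < j
    · have := hbm i j hij
      omega
    · have h8 := hn.monotone (not_lt.1 hij)
      have h9 := hnN j
      omega
  have hmem : ∀ x : Z, (∀ k, k ∉ range n → x k = z k) → (∀ k, x k ∈ F k) → x ∈ G0 := by
    intro x hx hxF
    apply hO
    rw [mem_iInter]
    intro r
    exact h3 (b r) (lp r) r x (fun k _ => hxF k) (hcond x hx r) r le_rfl
  have hzG : z ∈ G0 := hmem z (fun _ _ => rfl) hF
  have hpw : ∀ {i j : ℕ}, i ≤ j → ((1 : ℝ) / 2) ^ j ≤ (1 / 2) ^ i := fun h =>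
    pow_le_pow_of_le_one (by norm_num) (by norm_num) h
  have hup : ∀ j (u : ℕ), ∀ k, k ∉ range n → Function.update z (n j) u k = z k := by
    intro j u k hk
    rw [Function.update_of_ne]
    rintro rfl
    exact hk ⟨j, rfl⟩
  have hupF : ∀ j (u : ℕ), u ∈ F (n j) → ∀ k, Function.update z (n j) u k ∈ F k := by
    intro j u hu k
    by_cases h : k = n j
    · subst h; rw [Function.update_self]; exact hu
    · rw [Function.update_of_ne h]; exact hF k
  have hsm : ∀ j, ∀ i ∈ Finset.range (lp (j + 1)), ∀ w : ℝ,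
      w ≤ (1 / 2) ^ (b j) / ((lp (j + 1) : ℝ) + 1) → w ≤ (1 / 2) ^ (b j) / ((lp (j + 1) : ℝ) + 1) :=
    fun _ _ _ _ h => h
  refine ⟨n, fun j => lp (j + 1), hn, fun i j hij => hlpm (Nat.succ_lt_succ hij),
    fun j => hp2 _ _, ?_, ?_⟩
  · intro x hx hxF j
    -- the intermediate point
    have hx1 : ∀ k, k ∉ range n → md (b j) (fun i => z i) x k = z k := by
      intro k hk
      by_cases h : k < b j
      · rw [md_lt _ _ h]
      · rw [md_ge _ _ h, hx k hk]
    have hx1F : ∀ k, md (b j) (fun i => z i) x k ∈ F k := by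
      intro k
      by_cases h : k < b j
      · rw [md_lt _ _ h]; exact hF k
      · rw [md_ge _ _ h]; exact hxF k
    have e1 : ∑ i ∈ Finset.Ico (lp (j + 1)) (lp (j + 1 + 1)),
        |θ x i - θ (md (b j) (fun i => z i) x) i| ^ q ≤ (1 / 2) ^ j := by
      have h6 := h4 (b j) (lp j) j x (hmem _ hx1 hx1F) (hcond x hx j) (fun i => x i)
        (fun i => z i) (fun k => hxF k) (fun k => hF k)
      rw [md_self] at h6
      have h7 := h6 (Finset.Ico (lp (j + 1)) (lp (j + 1 + 1))) fun i hi => by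
        rw [Finset.mem_Ico] at hi
        exact hi.1
      exact h7.trans (hpw (hbj j))
    have e2 : ∑ i ∈ Finset.Ico (lp (j + 1)) (lp (j + 1 + 1)),
        |θ (md (b j) (fun i => z i) x) i - θ (Function.update z (n j) (x (n j))) i| ^ q ≤
          (1 / 2) ^ j := by
      have hag : agz (Nf (b (j + 1)) (lp (j + 1)) (j + 1)) (md (b j) (fun i => z i) x)
          (Function.update z (n j) (x (n j))) := by
        intro k hk
        by_cases hkn : k = n j
        · subst hkn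
          rw [Function.update_self, md_ge _ _ (by have := hbn j; omega)]
        · rw [Function.update_of_ne hkn]
          by_cases h : k < b j
          · rw [md_lt _ _ h]
          · rw [md_ge _ _ h]
            apply hx
            rintro ⟨i, rfl⟩
            by_cases hij : i < j
            · exact h (hbm i j hij)
            · have h8 : j < i := by
                rcases Nat.lt_or_ge j i with h9 | h9
                · exact h9
                · exact absurd (congrArg n (le_antisymm h9 (not_lt.1 hij))) hkn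
              have h9 := hn.monotone (show j + 1 ≤ i by omega)
              have h10 := hnN (j + 1)
              omega
      have h6 := h5 (b (j + 1)) (lp (j + 1)) (j + 1) _ (hmem _ hx1 hx1F) _
        (hmem _ (hup j _) (hupF j _ (hxF _))) (fun k _ => hx1F k)
        (hcond _ hx1 (j + 1)) hag
      have h7 : ∀ i ∈ Finset.Ico (lp (j + 1)) (lp (j + 1 + 1)),
          |θ (md (b j) (fun i => z i) x) i - θ (Function.update z (n j) (x (n j))) i| ^ q ≤
            (1 / 2) ^ (b (j + 1)) / ((lp (j + 1 + 1) : ℝ) + 1) := by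
        intro i hi
        rw [Finset.mem_Ico] at hi
        exact h6 i hi.2
      refine (Finset.sum_le_card_nsmul _ _ _ h7).trans ?_
      rw [Nat.card_Ico, nsmul_eq_mul]
      have h8 : ((lp (j + 1 + 1) - lp (j + 1) : ℕ) : ℝ) ≤ (lp (j + 1 + 1) : ℝ) + 1 := by
        have : (lp (j + 1 + 1) - lp (j + 1) : ℕ) ≤ lp (j + 1 + 1) + 1 := by omega
        exact_mod_cast this
      calc ((lp (j + 1 + 1) - lp (j + 1) : ℕ) : ℝ) *
            ((1 / 2) ^ (b (j + 1)) / ((lp (j + 1 + 1) : ℝ) + 1))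
          ≤ ((lp (j + 1 + 1) : ℝ) + 1) * ((1 / 2) ^ (b (j + 1)) / ((lp (j + 1 + 1) : ℝ) + 1)) := by
            gcongr
        _ = (1 / 2) ^ (b (j + 1)) := by field_simp
        _ ≤ (1 / 2) ^ j := hpw ((Nat.le_succ j).trans (hbj (j + 1)))
    have := sum_tri hq _ _ _ _ e1 e2
    rwa [← two_mul] at this
  · intro j u hu
    constructor
    · have hag : agz (Nf (b j) (lp j) j) z (Function.update z (n j) u) := by
        intro k hk
        rw [Function.update_of_ne]
        rintro rfl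
        have := hnN j
        omega
      have h6 := h5 (b j) (lp j) j _ hzG _ (hmem _ (hup j u) (hupF j u hu)) (fun k _ => hF k)
        (fun _ _ _ => rfl) hag
      have h7 : ∀ i ∈ Finset.range (lp (j + 1)),
          |θ (Function.update z (n j) u) i - θ z i| ^ q ≤
            (1 / 2) ^ (b j) / ((lp (j + 1) : ℝ) + 1) := by
        intro i hi
        rw [Finset.mem_range] at hi
        have h8 := h6 i hi
        rw [abs_sub_comm] at h8
        exact h8
      refine (Finset.sum_le_card_nsmul _ _ _ h7).trans ?_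
      rw [Finset.card_range, nsmul_eq_mul]
      calc (lp (j + 1) : ℝ) * ((1 / 2) ^ (b j) / ((lp (j + 1) : ℝ) + 1))
          ≤ ((lp (j + 1) : ℝ) + 1) * ((1 / 2) ^ (b j) / ((lp (j + 1) : ℝ) + 1)) := by
            have : (lp (j + 1) : ℝ) ≤ (lp (j + 1) : ℝ) + 1 := by linarith
            gcongr
        _ = (1 / 2) ^ (b j) := by field_simp
        _ ≤ (1 / 2) ^ j := hpw (hbj j)
    · have h6 := h4 (b (j + 1)) (lp (j + 1)) (j + 1) z (by rw [md_self]; exact hzG)
        (fun _ _ _ => rfl) (fun i => Function.update z (n j) u i) (fun i => z i)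
        (fun k => hupF j u hu k) (fun k => hF k)
      have h7 : md (b (j + 1)) (fun i => Function.update z (n j) u i) z =
          Function.update z (n j) u := by
        funext k
        by_cases h : k < b (j + 1)
        · rw [md_lt _ _ h]
        · rw [md_ge _ _ h, Function.update_of_ne]
          rintro rfl
          apply h
          rw [hb]
          omega
      rw [h7, md_self] at h6
      intro s hs
      exact (h6 s hs).trans (hpw ((Nat.le_succ j).trans (hbj (j + 1))))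

end Pool.Agent.Helper72K
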