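import Pool.Agent.Helper72K.Wk

/-!
# Finite integer vectors; the obstruction for large exponents
-/

set_option autoImplicit false

open Filter Topology

namespace Pool.Agent.Helper72K

/-- finite integer vectors -/
abbrev Vc : Type := ℕ →₀ ℤ

/-- the square of the norm -/
noncomputable def nn (x : Vc) : ℝ := x.sum fun _ a => (a : ℝ) ^ 2

theorem nn_eq (x : Vc) {s : Finset ℕ} (h : x.support ⊆ s) : nn x = ∑ i ∈ s, (x i : ℝ) ^ 2 := by
  unfold nn
  rw [Finsupp.sum_of_support_subset x h _ (fun i _ => by simp)]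

theorem nn_nonneg (x : Vc) : 0 ≤ nn x := by
  rw [nn_eq x subset_rfl]
  exact Finset.sum_nonneg fun _ _ => sq_nonneg _

theorem nn_one_le {x : Vc} (h : x ≠ 0) : 1 ≤ nn x := by
  obtain ⟨i, hi⟩ := Finsupp.ne_iff.1 h
  rw [Finsupp.coe_zero, Pi.zero_apply] at hi
  rw [nn_eq x subset_rfl]
  have h1 : i ∈ x.support := Finsupp.mem_support_iff.2 hi
  refine le_trans ?_ (Finset.single_le_sum (f := fun i => (x i : ℝ) ^ 2) (fun _ _ => sq_nonneg _) h1)
  have h2 : (1 : ℤ) ≤ (x i) ^ 2 := by
    have := pow_pos (abs_pos.2 hi) 2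
    rw [sq_abs] at this
    linarith
  exact_mod_cast h2

theorem nn_zero : nn 0 = 0 := by
  unfold nn
  rw [Finsupp.sum_zero_index]

/-- indicator vectors -/
noncomputable def ind (A : Finset ℕ) : Vc := Finsupp.indicator A fun _ _ => 1

theorem ind_apply (A : Finset ℕ) (i : ℕ) : ind A i = if i ∈ A then 1 else 0 := by
  unfold ind
  rw [Finsupp.indicator_apply]
  split_ifs <;> rfl

theorem nn_ind (A : Finset ℕ) : nn (ind A) = A.card := by
  rw [nn_eq (s := A)]
  · rw [Finset.sum_congr rfl (g := fun _ => (1 : ℝ))]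
    · simp
    · intro i hi
      rw [ind_apply, if_pos hi]
      norm_num
  · intro i hi
    rw [Finsupp.mem_support_iff, ind_apply] at hi
    by_contra h
    rw [if_neg h] at hi
    exact hi rfl

theorem nn_ind_sub (A B : Finset ℕ) : nn (ind A - ind B) = ((A \ B).card + (B \ A).card : ℕ) := by
  classical
  have hd : Disjoint (A \ B) (B \ A) := by
    rw [Finset.disjoint_left]
    intro i hi hi'
    exact (Finset.mem_sdiff.1 hi').2 (Finset.mem_sdiff.1 hi).1
  rw [nn_eq (s := (A \ B) ∪ (B \ A)), Finset.sum_union hd]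
  · push_cast
    congr 1
    · rw [Finset.sum_congr rfl (g := fun _ => (1 : ℝ))]
      · simp
      · intro i hi
        rw [Finset.mem_sdiff] at hi
        rw [Pi.sub_apply, ind_apply, ind_apply, if_pos hi.1, if_neg hi.2]
        norm_num
    · rw [Finset.sum_congr rfl (g := fun _ => (1 : ℝ))]
      · simp
      · intro i hi
        rw [Finset.mem_sdiff] at hi
        rw [Pi.sub_apply, ind_apply, ind_apply, if_pos hi.1, if_neg hi.2]
        norm_num
  · intro i hi
    rw [Finsupp.mem_support_iff, Finsupp.sub_apply, ind_apply, ind_apply] at hi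
    rw [Finset.mem_union, Finset.mem_sdiff, Finset.mem_sdiff]
    by_cases h1 : i ∈ A <;> by_cases h2 : i ∈ B
    · rw [if_pos h1, if_pos h2] at hi
      exact absurd (sub_self _) hi
    · exact Or.inl ⟨h1, h2⟩
    · exact Or.inr ⟨h2, h1⟩
    · rw [if_neg h1, if_neg h2] at hi
      exact absurd (sub_self _) hi

theorem ev_notMem (A : Finset ℕ) : ∀ᶠ n in UU, n ∉ A :=
  hyperfilter_le_cofinite (A.finite_toSet.compl_mem_cofinite)

theorem ev_ge (N : ℕ) : ∀ᶠ n in UU, N ≤ n := by
  refine (ev_notMem (Finset.range N)).mono fun n hn => ?_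
  rwa [Finset.mem_range, not_lt] at hn

/-- functions on finite sets with small jumps are asymptotically concentrated -/
theorem kr {q : ℝ} (hq : 0 < q) (L : ℕ) : ∀ (f : Finset ℕ → ℕ → ℝ) (Λ : ℝ), 0 ≤ Λ →
    (∀ (A : Finset ℕ) (a b : ℕ), a ∉ A → b ∉ A → A.card + 1 = L →
      Bd q (fun i => f (insert a A) i - f (insert b A) i) Λ) →
    ∃ f0 : ℕ → ℝ, ∀ ε : ℝ, 0 < ε → ∀ N : ℕ, ∃ A : Finset ℕ, A.card = L ∧ (∀ a ∈ A, N ≤ a) ∧
      Bd q (fun i => f A i - f0 i) (L * Λ + ε) := by
  induction L with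
  | zero =>
    intro f Λ hΛ _
    refine ⟨f ∅, fun ε hε N => ⟨∅, rfl, fun a ha => absurd ha (Finset.notMem_empty a), fun s => ?_⟩⟩
    simp only [sub_self, abs_zero]
    rw [Real.zero_rpow hq.ne']
    simp [hε.le]
  | succ L ih =>
    intro f Λ hΛ hf
    -- the limits
    have hlim : ∀ A : Finset ℕ, ∃ g : ℕ → ℝ, A.card = L → ∀ i,
        Tendsto (fun n => f (insert n A) i) UU (𝓝 (g i)) := by
      intro A
      by_cases hA : A.card = L
      · obtain ⟨m, hm⟩ := (ev_notMem A).exists
        obtain ⟨g, hg⟩ := exists_lim (f := fun n => f (insert n A)) fun i => by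
          refine ⟨Λ ^ (1 / q) + |f (insert m A) i|, (ev_notMem A).mono fun n hn => ?_⟩
          have h1 := abs_le_of_Bd hq (hf A n m hn hm (by omega)) i
          have h2 := abs_sub_abs_le_abs_sub (f (insert n A) i) (f (insert m A) i)
          linarith
        exact ⟨g, fun _ => hg⟩
      · exact ⟨0, fun h => absurd h hA⟩
    choose f' hf' using hlim
    obtain ⟨f0, hf0⟩ := ih f' Λ hΛ (by
      intro A a b ha hb hA
      have ha' : (insert a A).card = L := by rw [Finset.card_insert_of_notMem ha, hA]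
      have hb' : (insert b A).card = L := by rw [Finset.card_insert_of_notMem hb, hA]
      refine Bd_lim hq (F := UU) (f := fun n i => f (insert n (insert a A)) i -
        f (insert n (insert b A)) i) (fun i => (hf' _ ha' i).sub (hf' _ hb' i)) ?_
      filter_upwards [ev_notMem (insert a (insert b A))] with n hn
      rw [Finset.mem_insert, Finset.mem_insert, not_or, not_or] at hn
      rw [Finset.insert_comm n a, Finset.insert_comm n b]
      refine hf _ _ _ ?_ ?_ (by rw [Finset.card_insert_of_notMem hn.2.2, hA])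
      · rw [Finset.mem_insert, not_or]
        exact ⟨fun h => hn.1 h.symm, ha⟩
      · rw [Finset.mem_insert, not_or]
        exact ⟨fun h => hn.2.1 h.symm, hb⟩)
    refine ⟨f0, fun ε hε N => ?_⟩
    obtain ⟨A, hA, hAN, hAB⟩ := hf0 (ε / 2) (by positivity) N
    have hg : ∀ᶠ n in UU, Bd q (fun i => f (insert n A) i - f' A i) Λ := by
      filter_upwards [ev_notMem A] with n hn
      refine Bd_lim hq (F := UU) (f := fun m i => f (insert n A) i - f (insert m A) i)
        (fun i => (hf' A hA i).const_sub _) ?_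
      filter_upwards [ev_notMem A] with m hm
      exact hf A n m hn hm (by omega)
    have hg0 : ∀ i, Tendsto (fun n => f (insert n A) i - f' A i) UU (𝓝 0) := by
      intro i
      have := (hf' A hA i).sub_const (f' A i)
      rwa [sub_self] at this
    have h1 := split_upper hq (F := UU) (show 0 < ε / 2 by positivity) hAB hg hΛ hg0
    obtain ⟨n, hn1, hn2, hn3⟩ := (h1.and ((ev_notMem A).and (ev_ge N))).exists
    refine ⟨insert n A, by rw [Finset.card_insert_of_notMem hn2, hA], fun a ha => ?_, fun s => ?_⟩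
    · rcases Finset.mem_insert.1 ha with rfl | ha
      · exact hn3
      · exact hAN a ha
    · have h2 := hn1 s
      have h3 : ∀ i, f' A i - f0 i + (f (insert n A) i - f' A i) = f (insert n A) i - f0 i :=
        fun i => by ring
      simp only [h3] at h2
      refine h2.trans (le_of_eq ?_)
      push_cast
      ring

theorem add_rpow_le {q : ℝ} (hq : 0 < q) (a b : ℝ) :
    |a + b| ^ q ≤ 2 ^ q * (|a| ^ q + |b| ^ q) := by
  have h1 : |a + b| ≤ 2 * max |a| |b| := by
    have := abs_add_le a b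
    have h2 := le_max_left |a| |b|
    have h3 := le_max_right |a| |b|
    linarith
  have h0 : 0 ≤ max |a| |b| := (abs_nonneg a).trans (le_max_left _ _)
  calc |a + b| ^ q ≤ (2 * max |a| |b|) ^ q := Real.rpow_le_rpow (abs_nonneg _) h1 hq.le
    _ = 2 ^ q * (max |a| |b|) ^ q := Real.mul_rpow (by norm_num) h0
    _ ≤ 2 ^ q * (|a| ^ q + |b| ^ q) := by
        apply mul_le_mul_of_nonneg_left _ (by positivity)
        rcases max_cases |a| |b| with h | h <;> rw [h.1]
        · have : 0 ≤ |b| ^ q := by positivity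
          linarith
        · have : 0 ≤ |a| ^ q := by positivity
          linarith

theorem Bd_tri {q : ℝ} (hq : 0 < q) {a b c : ℕ → ℝ} {X Y : ℝ} (h1 : Bd q (fun i => a i - b i) X)
    (h2 : Bd q (fun i => b i - c i) Y) : Bd q (fun i => a i - c i) (2 ^ q * (X + Y)) := by
  intro s
  calc ∑ i ∈ s, |a i - c i| ^ q ≤ ∑ i ∈ s, 2 ^ q * (|a i - b i| ^ q + |b i - c i| ^ q) := by
        refine Finset.sum_le_sum fun i _ => ?_
        have h3 : a i - c i = (a i - b i) + (b i - c i) := by ring
        rw [h3]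
        exact add_rpow_le hq _ _
    _ = 2 ^ q * (∑ i ∈ s, |a i - b i| ^ q + ∑ i ∈ s, |b i - c i| ^ q) := by
        rw [← Finset.mul_sum, Finset.sum_add_distrib]
    _ ≤ 2 ^ q * (X + Y) := by
        apply mul_le_mul_of_nonneg_left _ (by positivity)
        exact add_le_add (h1 s) (h2 s)

/-- two-sided estimates on the integer vectors of a ball -/
def Emb (p q c C : ℝ) (R : ℕ) (σ : ℝ) (φ : Vc → ℕ → ℝ) : Prop :=
  ∀ x y : Vc, nn x ≤ R → nn y ≤ R → x ≠ y →
    (Summable fun i => |φ x i - φ y i| ^ q) ∧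
    c * (σ * nn (x - y) ^ (p / 2)) ≤ ∑' i, |φ x i - φ y i| ^ q ∧
    ∑' i, |φ x i - φ y i| ^ q ≤ C * (σ * nn (x - y) ^ (p / 2))

theorem high_contra {p q c C : ℝ} (hp : 2 < p) (hq : 0 < q) (hc : 0 < c) (hC : 0 < C) :
    ∃ R : ℕ, ∀ σ : ℝ, 0 < σ → ∀ φ, ¬ Emb p q c C R σ φ := by
  -- choice of the number of points
  obtain ⟨L, hL1, hL⟩ : ∃ L : ℕ, 1 ≤ L ∧ 2 ^ q * 4 * C / c < (L : ℝ) ^ (p / 2 - 1) := by
    have h1 : Tendsto (fun x : ℝ => x ^ (p / 2 - 1)) atTop atTop :=
      tendsto_rpow_atTop (by linarith)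
    have h2 := (h1.comp tendsto_natCast_atTop_atTop).eventually_gt_atTop (2 ^ q * 4 * C / c)
    obtain ⟨L, hL⟩ := (h2.and (eventually_ge_atTop 1)).exists
    exact ⟨L, hL.2, hL.1⟩
  refine ⟨L, fun σ hσ φ hφ => ?_⟩
  set Λ := C * (σ * 2 ^ (p / 2)) with hΛ
  have hΛ0 : 0 < Λ := by positivity
  obtain ⟨f0, hf0⟩ := kr hq L (fun A => φ (ind A)) Λ hΛ0.le (by
    intro A a b ha hb hA
    by_cases hab : a = b
    · subst hab
      intro s
      simp only [sub_self, abs_zero]
      rw [Real.zero_rpow hq.ne']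
      simp [hΛ0.le]
    have h1 : nn (ind (insert a A)) ≤ L := by
      rw [nn_ind, Finset.card_insert_of_notMem ha, hA]
    have h2 : nn (ind (insert b A)) ≤ L := by
      rw [nn_ind, Finset.card_insert_of_notMem hb, hA]
    have h3 : nn (ind (insert a A) - ind (insert b A)) = 2 := by
      rw [nn_ind_sub]
      have e1 : insert a A \ insert b A = {a} := by
        ext x
        simp only [Finset.mem_sdiff, Finset.mem_insert, Finset.mem_singleton]
        constructor
        · rintro ⟨rfl | h, h'⟩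
          · rfl
          · exact absurd (Or.inr h) h'
        · rintro rfl
          exact ⟨Or.inl rfl, fun h => h.elim hab ha⟩
      have e2 : insert b A \ insert a A = {b} := by
        ext x
        simp only [Finset.mem_sdiff, Finset.mem_insert, Finset.mem_singleton]
        constructor
        · rintro ⟨rfl | h, h'⟩
          · rfl
          · exact absurd (Or.inr h) h'
        · rintro rfl
          exact ⟨Or.inl rfl, fun h => h.elim (fun h => hab h.symm) hb⟩
      rw [e1, e2]
      norm_num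
    have h4 : ind (insert a A) ≠ ind (insert b A) := by
      intro h
      rw [h, sub_self, nn_zero] at h3
      norm_num at h3
    obtain ⟨h5, -, h6⟩ := hφ _ _ h1 h2 h4
    rw [h3] at h6
    exact Bd_of h5 h6)
  obtain ⟨A, hA, -, hAB⟩ := hf0 Λ hΛ0 0
  obtain ⟨B, hB, hBN, hBB⟩ := hf0 Λ hΛ0 (A.sup id + 1)
  have hdis : Disjoint A B := by
    rw [Finset.disjoint_left]
    intro i hi hi'
    have h1 : id i ≤ A.sup id := Finset.le_sup hi
    have h2 := hBN i hi'
    simp only [id] at h1
    omega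
  have h1 : nn (ind A) ≤ L := by rw [nn_ind, hA]
  have h2 : nn (ind B) ≤ L := by rw [nn_ind, hB]
  have h3 : nn (ind A - ind B) = 2 * L := by
    rw [nn_ind_sub, Finset.sdiff_eq_self_of_disjoint hdis,
      Finset.sdiff_eq_self_of_disjoint hdis.symm, hA, hB]
    push_cast
    ring
  have hL0 : (0 : ℝ) < L := by exact_mod_cast hL1
  have h4 : ind A ≠ ind B := by
    intro h
    rw [h, sub_self, nn_zero] at h3
    linarith
  obtain ⟨h5, h6, -⟩ := hφ _ _ h1 h2 h4
  have h7 := Bd_tri hq hAB (Bd_swap hBB)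
  have h8 := h6.trans h7.tsum_le
  rw [h3, Real.mul_rpow (by norm_num) hL0.le] at h8
  have h9 : (L : ℝ) ^ (p / 2) = L ^ (p / 2 - 1) * L := by
    rw [Real.rpow_sub_one hL0.ne']
    field_simp
  rw [h9] at h8
  rw [div_lt_iff₀ hc] at hL
  have hL1' : (1 : ℝ) ≤ L := by exact_mod_cast hL1
  have h10 : 2 ^ q * (↑L * Λ + Λ + (↑L * Λ + Λ)) ≤ 2 ^ q * (4 * (L * Λ)) := by
    apply mul_le_mul_of_nonneg_left _ (by positivity)
    nlinarith
  have h11 : c * (σ * (2 ^ (p / 2) * (↑L ^ (p / 2 - 1) * ↑L))) =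
      (L ^ (p / 2 - 1) * c) * (σ * 2 ^ (p / 2) * L) := by ring
  have h12 : 2 ^ q * (4 * (L * Λ)) = (2 ^ q * 4 * C) * (σ * 2 ^ (p / 2) * L) := by
    rw [hΛ]; ring
  rw [h11] at h8
  have h13 : 0 < σ * 2 ^ (p / 2) * L := by positivity
  have h14 := (mul_lt_mul_of_pos_right hL h13)
  linarith

end Pool.Agent.Helper72K
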