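import Pool.Agent.Helper72K.Hi

/-!
# The obstruction for small exponents
-/

set_option autoImplicit false

open Filter Topology

namespace Pool.Agent.Helper72K

theorem nn_par (x y : Vc) : nn (x + y) + nn (x - y) = 2 * nn x + 2 * nn y := by
  classical
  have h1 : (x + y).support ⊆ x.support ∪ y.support := Finsupp.support_add
  have h2 : (x - y).support ⊆ x.support ∪ y.support := Finsupp.support_sub
  rw [nn_eq _ h1, nn_eq _ h2, nn_eq x Finset.subset_union_left, nn_eq y Finset.subset_union_right,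
    Finset.mul_sum, Finset.mul_sum, ← Finset.sum_add_distrib, ← Finset.sum_add_distrib]
  refine Finset.sum_congr rfl fun i _ => ?_
  rw [Finsupp.add_apply, Finsupp.sub_apply]
  push_cast
  ring

theorem nn_smul (k : ℤ) (x : Vc) : nn (k • x) = (k : ℝ) ^ 2 * nn x := by
  rw [nn_eq _ (Finsupp.support_smul (b := k) (g := x)), nn_eq x subset_rfl, Finset.mul_sum]
  refine Finset.sum_congr rfl fun i _ => ?_
  rw [Finsupp.smul_apply, smul_eq_mul]
  push_cast
  ring

theorem nn_single (c : ℕ) (a : ℤ) : nn (Finsupp.single c a) = (a : ℝ) ^ 2 := by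
  unfold nn
  rw [Finsupp.sum_single_index]
  simp

theorem nn_neg (x : Vc) : nn (-x) = nn x := by
  have := nn_smul (-1) x
  simpa using this

theorem nn_add_single {u : Vc} {c : ℕ} (a : ℤ) (h : c ∉ u.support) :
    nn (u + Finsupp.single c a) = nn u + (a : ℝ) ^ 2 := by
  classical
  have hc : u c = 0 := Finsupp.notMem_support_iff.1 h
  have h1 : (u + Finsupp.single c a).support ⊆ insert c u.support := by
    refine Finsupp.support_add.trans ?_
    rw [Finset.insert_eq, Finset.union_comm]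
    exact Finset.union_subset_union Finsupp.support_single_subset subset_rfl
  rw [nn_eq _ h1, nn_eq u subset_rfl, Finset.sum_insert h, add_comm]
  congr 1
  · refine Finset.sum_congr rfl fun i hi => ?_
    have h2 : i ≠ c := fun h' => h (h' ▸ hi)
    rw [Finsupp.add_apply, Finsupp.single_apply, if_neg (fun h' => h2 h'.symm), add_zero]
  · rw [Finsupp.add_apply, Finsupp.single_apply, if_pos rfl, hc, zero_add]

theorem nn_sub_single {u : Vc} {c : ℕ} (a : ℤ) (h : c ∉ u.support) :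
    nn (u - Finsupp.single c a) = nn u + (a : ℝ) ^ 2 := by
  have := nn_add_single (-a) h
  rw [Finsupp.single_neg, ← sub_eq_add_neg] at this
  rw [this]
  push_cast
  ring

theorem nn_two_single {c c' : ℕ} (h : c ≠ c') (a : ℤ) :
    nn (Finsupp.single c a - Finsupp.single c' a) = 2 * (a : ℝ) ^ 2 := by
  rw [nn_sub_single, nn_single]
  · ring
  · rw [Finsupp.notMem_support_iff, Finsupp.single_apply, if_neg h]

/-- asymptotic midpoints -/
theorem mid_lemma {p : ℝ} (hp : 1 ≤ p) {X Y : ℕ → ℝ} {M : ℕ → ℕ → ℝ} {W ε : ℝ} (hε : 0 < ε)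
    (hX : ∀ᶠ n in UU, Bd p (fun i => X i - M n i) W)
    (hY : ∀ᶠ n in UU, Bd p (fun i => Y i - M n i) W) :
    ∀ᶠ n in UU, ∀ᶠ m in UU, Bd p (fun i => M n i - M m i)
      (2 ^ p * (2 * (W - 2 ^ (-p) * ∑' i, |X i - Y i| ^ p + ε))) := by
  have hp0 : 0 < p := by linarith
  obtain ⟨n0, hn0⟩ := hX.exists
  have hW := hn0.nonneg
  obtain ⟨g, hg⟩ := exists_lim (f := M) fun i => by
    refine ⟨|X i| + W ^ (1 / p), hX.mono fun n hn => ?_⟩
    have h1 := abs_le_of_Bd hp0 hn i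
    have h2 := abs_sub_abs_le_abs_sub (M n i) (X i)
    rw [abs_sub_comm] at h2
    linarith
  have hXg : Bd p (fun i => X i - g i) W :=
    Bd_lim hp0 (F := UU) (fun i => (hg i).const_sub (X i)) hX
  have hYg : Bd p (fun i => Y i - g i) W :=
    Bd_lim hp0 (F := UU) (fun i => (hg i).const_sub (Y i)) hY
  have hg0 : ∀ i, Tendsto (fun n => g i - M n i) UU (𝓝 0) := by
    intro i
    have := (hg i).const_sub (g i)
    rwa [sub_self] at this
  have hs1 : ∀ᶠ n in UU, Bd p (fun i => g i - M n i) (W - ∑' i, |X i - g i| ^ p + ε) := by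
    refine split_lower hp0 hε hXg (hX.mono fun n hn => ?_) hW hg0
    have h3 : (fun i => X i - g i + (g i - M n i)) = fun i => X i - M n i := by
      funext i; ring
    rw [h3]
    exact hn
  have hs2 : ∀ᶠ n in UU, Bd p (fun i => g i - M n i) (W - ∑' i, |Y i - g i| ^ p + ε) := by
    refine split_lower hp0 hε hYg (hY.mono fun n hn => ?_) hW hg0
    have h3 : (fun i => Y i - g i + (g i - M n i)) = fun i => Y i - M n i := by
      funext i; ring
    rw [h3]
    exact hn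
  set E := ∑' i, |X i - Y i| ^ p with hE
  have hconv : ∀ i, |X i - Y i| ^ p ≤ 2 ^ (p - 1) * (|X i - g i| ^ p + |Y i - g i| ^ p) := by
    intro i
    have h1 : |X i - Y i| ≤ |X i - g i| + |Y i - g i| := by
      have : X i - Y i = (X i - g i) - (Y i - g i) := by ring
      rw [this]
      exact abs_sub _ _
    refine (Real.rpow_le_rpow (abs_nonneg _) h1 hp0.le).trans ?_
    have h2 := (convexOn_rpow hp).2 (x := |X i - g i|) (y := |Y i - g i|)
      (Set.mem_Ici.2 (abs_nonneg _)) (Set.mem_Ici.2 (abs_nonneg _)) (by norm_num : (0 : ℝ) ≤ 1 / 2)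
      (by norm_num : (0 : ℝ) ≤ 1 / 2) (by norm_num)
    simp only [smul_eq_mul] at h2
    rw [← mul_add, Real.mul_rpow (by norm_num) (by positivity)] at h2
    have h3 : (2 : ℝ) ^ (p - 1) = 2 ^ p * (1 / 2) := by
      rw [Real.rpow_sub_one (by norm_num)]
      ring
    have h4 : (2 : ℝ) ^ p * (1 / 2) ^ p = 1 := by
      rw [← Real.mul_rpow (by norm_num) (by norm_num)]
      norm_num
    calc (|X i - g i| + |Y i - g i|) ^ p
        = 2 ^ p * ((1 / 2) ^ p * (|X i - g i| + |Y i - g i|) ^ p) := by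
          rw [← mul_assoc, h4, one_mul]
      _ ≤ 2 ^ p * (1 / 2 * |X i - g i| ^ p + 1 / 2 * |Y i - g i| ^ p) := by gcongr
      _ = _ := by rw [h3]; ring
  have hsum : Summable fun i => 2 ^ (p - 1) * (|X i - g i| ^ p + |Y i - g i| ^ p) :=
    (hXg.summable.add hYg.summable).mul_left _
  have hE2 : E ≤ 2 ^ (p - 1) * (∑' i, |X i - g i| ^ p + ∑' i, |Y i - g i| ^ p) := by
    rw [hE, ← hXg.summable.tsum_add hYg.summable, ← tsum_mul_left]
    exact (Summable.of_nonneg_of_le (fun _ => by positivity) hconv hsum).tsum_le_tsum hconv hsum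
  have hh : ∀ᶠ n in UU, Bd p (fun i => g i - M n i) (W - 2 ^ (-p) * E + ε) := by
    have h1 : (2 : ℝ) ^ (-p) * 2 ^ (p - 1) = 1 / 2 := by
      rw [← Real.rpow_add (by norm_num)]
      have : -p + (p - 1) = -1 := by ring
      rw [this, Real.rpow_neg_one]
      norm_num
    have h2 : 2 ^ (-p) * E ≤ (∑' i, |X i - g i| ^ p + ∑' i, |Y i - g i| ^ p) / 2 := by
      calc 2 ^ (-p) * E ≤ 2 ^ (-p) * (2 ^ (p - 1) *
            (∑' i, |X i - g i| ^ p + ∑' i, |Y i - g i| ^ p)) := by gcongr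
        _ = _ := by rw [← mul_assoc, h1]; ring
    filter_upwards [hs1, hs2] with n h3 h4
    rcases le_total (∑' i, |X i - g i| ^ p) (∑' i, |Y i - g i| ^ p) with h5 | h5
    · exact h4.mono (by linarith)
    · exact h3.mono (by linarith)
  filter_upwards [hh] with n hn
  filter_upwards [hh] with m hm
  have h1 := Bd_tri hp0 (Bd_swap hn) hm
  refine h1.mono (le_of_eq ?_)
  ring

theorem low_contra {p c C : ℝ} (hp1 : 1 ≤ p) (hp2 : p < 2) (hc : 0 < c) (hC : 0 < C) :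
    ∃ R : ℕ, ∀ σ : ℝ, 0 < σ → ∀ φ, ¬ Emb p p c C R σ φ := by
  have hp0 : 0 < p := by linarith
  -- choice of the parameters
  obtain ⟨τ, hτ0, hτ1, hτ⟩ : ∃ τ : ℝ, 0 < τ ∧ τ ≤ 1 / 4 ∧ 70 * C * τ ^ 2 < c * τ ^ p := by
    have h1 : Tendsto (fun t : ℝ => t ^ (2 - p)) (𝓝 0) (𝓝 0) := by
      have h2 : ContinuousAt (fun t : ℝ => t ^ (2 - p)) 0 :=
        continuousAt_id.rpow_const (Or.inr (by linarith))
      have h3 := h2.tendsto
      simp only [Real.zero_rpow (show 2 - p ≠ 0 by linarith)] at h3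
      exact h3
    have h2 : ∀ᶠ t in 𝓝[>] (0 : ℝ), t ^ (2 - p) < c / (70 * C) :=
      (h1.mono_left nhdsWithin_le_nhds).eventually (gt_mem_nhds (by positivity))
    have h3 : ∀ᶠ t in 𝓝[>] (0 : ℝ), t ≤ 1 / 4 :=
      nhdsWithin_le_nhds (Iic_mem_nhds (by norm_num : (0 : ℝ) < 1 / 4))
    have h4 : ∀ᶠ t in 𝓝[>] (0 : ℝ), 0 < t := self_mem_nhdsWithin
    obtain ⟨τ, h5, h6, h7⟩ := (h2.and (h3.and h4)).exists
    refine ⟨τ, h7, h6, ?_⟩
    rw [lt_div_iff₀ (by positivity)] at h5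
    have h8 : τ ^ 2 = τ ^ (2 - p) * τ ^ p := by
      rw [← Real.rpow_add h7]
      have : 2 - p + p = ((2 : ℕ) : ℝ) := by push_cast; ring
      rw [this, Real.rpow_natCast]
    rw [h8]
    have h9 : 0 < τ ^ p := by positivity
    calc 70 * C * (τ ^ (2 - p) * τ ^ p) = (τ ^ (2 - p) * (70 * C)) * τ ^ p := by ring
      _ < c * τ ^ p := mul_lt_mul_of_pos_right h5 h9
  obtain ⟨K, hK⟩ := pow_unbounded_of_one_lt (C / c) (show (1 : ℝ) < 1 + τ ^ 2 by
    have := sq_pos_of_pos hτ0; linarith)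
  obtain ⟨T', hT'⟩ := pow_unbounded_of_one_lt (1 / τ) (by norm_num : (1 : ℝ) < 2)
  set T := T' + 1 with hTdef
  have hT : 1 ≤ τ * 2 ^ T := by
    rw [div_lt_iff₀ hτ0] at hT'
    have h1 : (2 : ℝ) ^ T' ≤ 2 ^ T := pow_le_pow_right₀ (by norm_num) (Nat.le_succ _)
    nlinarith
  refine ⟨2 ^ K * 4 ^ (T * K), fun σ hσ φ hφ => ?_⟩
  -- domains
  let ρ : ℕ → ℝ := fun k => 2 ^ (K - k) * 4 ^ (T * K)
  have hρR : ∀ k, ρ k ≤ ((2 ^ K * 4 ^ (T * K) : ℕ) : ℝ) := by
    intro k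
    push_cast
    have : (2 : ℝ) ^ (K - k) ≤ 2 ^ K := pow_le_pow_right₀ (by norm_num) (Nat.sub_le _ _)
    simp only [ρ]
    gcongr
  let Dm : ℕ → Set Vc := fun k => {x | (∃ x' : Vc, x = ((2 : ℤ) ^ (T * k)) • x') ∧ nn x ≤ ρ k}
  have hDmR : ∀ k, ∀ x ∈ Dm k, nn x ≤ ((2 ^ K * 4 ^ (T * K) : ℕ) : ℝ) :=
    fun k x hx => hx.2.trans (hρR k)
  let E : Vc → Vc → ℝ := fun x y => ∑' i, |φ x i - φ y i| ^ p
  let rt : ℕ → Set ℝ := fun k => {r | ∃ x ∈ Dm k, ∃ y ∈ Dm k, x ≠ y ∧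
    r = E x y / nn (x - y) ^ (p / 2)}
  have hnpos : ∀ x y : Vc, x ≠ y → 0 < nn (x - y) ^ (p / 2) := fun x y h =>
    Real.rpow_pos_of_pos (lt_of_lt_of_le one_pos (nn_one_le (sub_ne_zero.2 h))) _
  have hupb : ∀ k, ∀ r ∈ rt k, r ≤ C * σ := by
    rintro k r ⟨x, hx, y, hy, hxy, rfl⟩
    rw [div_le_iff₀ (hnpos x y hxy)]
    have := (hφ x y (hDmR k x hx) (hDmR k y hy) hxy).2.2
    linarith
  have hlob : ∀ k, ∀ r ∈ rt k, c * σ ≤ r := by
    rintro k r ⟨x, hx, y, hy, hxy, rfl⟩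
    rw [le_div_iff₀ (hnpos x y hxy)]
    have := (hφ x y (hDmR k x hx) (hDmR k y hy) hxy).2.1
    linarith
  have hbdd : ∀ k, BddAbove (rt k) := fun k => ⟨C * σ, hupb k⟩
  have hDmono : ∀ k x, x ∈ Dm (k + 1) → x ∈ Dm k := by
    rintro k x ⟨⟨x', hx'⟩, hx⟩
    refine ⟨⟨((2 : ℤ) ^ T) • x', ?_⟩, hx.trans ?_⟩
    · rw [smul_smul, ← pow_add, hx']
      congr 2
    · simp only [ρ]
      have : (2 : ℝ) ^ (K - (k + 1)) ≤ 2 ^ (K - k) :=
        pow_le_pow_right₀ (by norm_num) (by omega)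
      gcongr
  have hne : ∀ k ≤ K, (rt k).Nonempty := by
    intro k hk
    refine Nat.decreasingInduction' (P := fun k => (rt k).Nonempty) (m := k) (n := K) ?_ hk ?_
    · rintro j - - ⟨r, x, hx, y, hy, hxy, hr⟩
      exact ⟨r, x, hDmono j x hx, y, hDmono j y hy, hxy, hr⟩
    · refine ⟨_, ((2 : ℤ) ^ (T * K)) • Finsupp.single 0 1, ⟨⟨_, rfl⟩, ?_⟩, 0,
        ⟨⟨0, by rw [smul_zero]⟩, ?_⟩, ?_, rfl⟩
      · rw [nn_smul, nn_single]
        simp only [ρ]
        push_cast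
        rw [Nat.sub_self, pow_zero, one_mul, one_pow, mul_one, ← pow_mul, mul_comm (T * K) 2,
          pow_mul]
        norm_num
      · rw [nn_zero]
        simp only [ρ]
        positivity
      · intro h
        have h1 := congrArg nn h
        rw [nn_zero, nn_smul, nn_single] at h1
        push_cast at h1
        have h2 : (0 : ℝ) < (2 ^ (T * K)) ^ 2 * 1 ^ 2 := by positivity
        linarith
  let S : ℕ → ℝ := fun k => sSup (rt k)
  have hS1 : ∀ k ≤ K, c * σ ≤ S k := fun k hk => by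
    obtain ⟨r, hr⟩ := hne k hk
    exact (hlob k r hr).trans (le_csSup (hbdd k) hr)
  have hS2 : ∀ k ≤ K, S k ≤ C * σ := fun k hk => csSup_le (hne k hk) (hupb k)
  -- pigeonhole
  obtain ⟨k, hkK, hk⟩ : ∃ k, k < K ∧ S k ≤ (1 + τ ^ 2) * S (k + 1) := by
    by_contra hcon
    push Not at hcon
    have h1 : ∀ j ≤ K, (1 + τ ^ 2) ^ j * S j ≤ S 0 := by
      intro j
      induction j with
      | zero => intro _; simp
      | succ j ih =>
        intro hj
        have h2 := hcon j (by omega)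
        have h3 := ih (by omega)
        have h4 : 0 < (1 + τ ^ 2) ^ j := by positivity
        calc (1 + τ ^ 2) ^ (j + 1) * S (j + 1) = (1 + τ ^ 2) ^ j * ((1 + τ ^ 2) * S (j + 1)) := by
              ring
          _ ≤ (1 + τ ^ 2) ^ j * S j := mul_le_mul_of_nonneg_left h2.le h4.le
          _ ≤ S 0 := h3
    have h2 := h1 K le_rfl
    have h3 := hS1 K le_rfl
    have h4 := hS2 0 (Nat.zero_le _)
    rw [div_lt_iff₀ hc] at hK
    have h5 : C * σ < (1 + τ ^ 2) ^ K * (c * σ) := by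
      calc C * σ < ((1 + τ ^ 2) ^ K * c) * σ := mul_lt_mul_of_pos_right hK hσ
        _ = _ := by ring
    have h6 : (1 + τ ^ 2) ^ K * (c * σ) ≤ (1 + τ ^ 2) ^ K * S K :=
      mul_le_mul_of_nonneg_left h3 (by positivity)
    linarith
  -- near optimal pair
  have hSk1 : 0 < S (k + 1) := lt_of_lt_of_le (by positivity) (hS1 (k + 1) hkK)
  have hτ2 : 0 < τ ^ 2 := by positivity
  obtain ⟨r, ⟨x, hx, y, hy, hxy, rfl⟩, hr⟩ := exists_lt_of_lt_csSup (hne (k + 1) hkK)
    (show (1 - τ ^ 2) * S (k + 1) < S (k + 1) by nlinarith)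
  set P := nn (x - y) ^ (p / 2) with hP
  have hP0 : 0 < P := hnpos x y hxy
  rw [lt_div_iff₀ hP0] at hr
  obtain ⟨⟨x', hx'⟩, hxρ⟩ := hx
  obtain ⟨⟨y', hy'⟩, hyρ⟩ := hy
  -- the midpoint
  set w : Vc := ((2 : ℤ) ^ (T * k)) • (((2 : ℤ) ^ T') • (x' + y')) with hw
  have hww : w + w = x + y := by
    have h1 : ((2 : ℤ) ^ (T * (k + 1))) = 2 * (2 ^ (T * k) * 2 ^ T') := by
      rw [hTdef]; ring
    rw [hx', hy', h1, hw]
    module
  have h4w : 4 * nn w = nn (x + y) := by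
    have h1 := nn_smul 2 w
    rw [two_smul, hww] at h1
    rw [h1]; norm_num
  have h4x : 4 * nn (x - w) = nn (x - y) := by
    have h1 := nn_smul 2 (x - w)
    have h2 : (2 : ℤ) • (x - w) = x - y := by
      rw [two_smul]
      have : x - w + (x - w) = x + x - (w + w) := by abel
      rw [this, hww]
      abel
    rw [h2] at h1
    rw [h1]; norm_num
  have h4y : 4 * nn (y - w) = nn (x - y) := by
    have h1 := nn_smul 2 (y - w)
    have h2 : (2 : ℤ) • (y - w) = -(x - y) := by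
      rw [two_smul]
      have : y - w + (y - w) = y + y - (w + w) := by abel
      rw [this, hww]
      abel
    rw [h2, nn_neg] at h1
    rw [h1]; norm_num
  set r2 := nn (x - y) with hr2
  have hpar := nn_par x y
  have hr2ρ : r2 ≤ 4 * ρ (k + 1) := by
    have := nn_nonneg (x + y)
    linarith
  have hr2low : (2 ^ (T * (k + 1))) ^ 2 ≤ r2 := by
    have h1 : x - y = ((2 : ℤ) ^ (T * (k + 1))) • (x' - y') := by
      rw [smul_sub, ← hx', ← hy']
    have h2 : x' - y' ≠ 0 := by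
      intro h
      rw [h, smul_zero] at h1
      exact hxy (sub_eq_zero.1 h1)
    have h3 := nn_one_le h2
    rw [hr2, h1, nn_smul]
    push_cast
    have h4 : (0 : ℝ) ≤ (2 ^ (T * (k + 1))) ^ 2 := by positivity
    nlinarith
  have hr20 : 0 < r2 := lt_of_lt_of_le (by positivity) hr2low
  -- the perturbation
  set sr := Real.sqrt r2 with hsr
  have hsr2 : sr ^ 2 = r2 := Real.sq_sqrt hr20.le
  have hsr0 : 0 < sr := Real.sqrt_pos.2 hr20
  have hsrlow : 2 ^ (T * (k + 1)) ≤ sr := Real.le_sqrt_of_sq_le hr2low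
  set m := ⌈τ * sr / 2 ^ (T * k)⌉₊ with hm
  set a : ℤ := 2 ^ (T * k) * (m : ℤ) with ha
  have haR : (a : ℝ) = 2 ^ (T * k) * (m : ℝ) := by
    rw [ha]; push_cast; rfl
  have hq0 : (0 : ℝ) < 2 ^ (T * k) := by positivity
  have ha1 : τ * sr ≤ a := by
    rw [haR]
    have := Nat.le_ceil (τ * sr / 2 ^ (T * k))
    rw [div_le_iff₀ hq0] at this
    rw [hm]
    linarith
  have ha2 : (a : ℝ) ≤ 2 * τ * sr := by
    rw [haR]
    have h1 := (Nat.ceil_lt_add_one (show 0 ≤ τ * sr / 2 ^ (T * k) by positivity)).le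
    rw [← hm] at h1
    have h2 : 2 ^ (T * k) * (m : ℝ) ≤ 2 ^ (T * k) * (τ * sr / 2 ^ (T * k) + 1) :=
      mul_le_mul_of_nonneg_left h1 hq0.le
    have h3 : 2 ^ (T * k) * (τ * sr / 2 ^ (T * k) + 1) = τ * sr + 2 ^ (T * k) := by
      field_simp
    have h4 : (2 : ℝ) ^ (T * k) ≤ τ * sr := by
      calc (2 : ℝ) ^ (T * k) ≤ 2 ^ (T * k) * (τ * 2 ^ T) := le_mul_of_one_le_right hq0.le hT
        _ = τ * 2 ^ (T * (k + 1)) := by rw [mul_add, mul_one, pow_add]; ring
        _ ≤ τ * sr := mul_le_mul_of_nonneg_left hsrlow hτ0.le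
    linarith
  have ha0 : (0 : ℝ) < a := lt_of_lt_of_le (by positivity) ha1
  have haa1 : τ ^ 2 * r2 ≤ (a : ℝ) ^ 2 := by
    rw [← hsr2, ← mul_pow]
    exact pow_le_pow_left₀ (by positivity) ha1 2
  have haa2 : (a : ℝ) ^ 2 ≤ 4 * τ ^ 2 * r2 := by
    have h1 : 4 * τ ^ 2 * r2 = (2 * τ * sr) ^ 2 := by rw [← hsr2]; ring
    rw [h1]
    exact pow_le_pow_left₀ ha0.le ha2 2
  have hτsq : τ ^ 2 ≤ 1 / 16 := by
    calc τ ^ 2 ≤ (1 / 4) ^ 2 := pow_le_pow_left₀ hτ0.le hτ1 2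
      _ = 1 / 16 := by norm_num
  -- the points
  let pm : ℕ → Vc := fun n => w + Finsupp.single n a
  have hpm : ∀ n, n ∉ w.support → pm n ∈ Dm k := by
    intro n hn
    refine ⟨⟨((2 : ℤ) ^ T') • (x' + y') + Finsupp.single n (m : ℤ), ?_⟩, ?_⟩
    · simp only [pm]
      rw [smul_add, ← hw, ha, Finsupp.smul_single, smul_eq_mul]
    · simp only [pm]
      rw [nn_add_single a hn]
      have h1 : nn w ≤ ρ (k + 1) := by
        have := nn_nonneg (x - y)
        linarith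
      have h2 : ρ k = 2 * ρ (k + 1) := by
        simp only [ρ]
        have : K - k = (K - (k + 1)) + 1 := by omega
        rw [this, pow_succ]
        ring
      have h3 : 4 * τ ^ 2 * r2 ≤ 4 * (1 / 16) * r2 := by gcongr
      rw [h2]
      linarith
  have hxk := hDmono k x ⟨⟨x', hx'⟩, hxρ⟩
  have hyk := hDmono k y ⟨⟨y', hy'⟩, hyρ⟩
  set W := S k * (2 ^ (-p) * P * (1 + 16 * τ ^ 2)) with hWd
  have hSk0 : 0 < S k := lt_of_lt_of_le (by positivity) (hS1 k hkK.le)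
  have hgen : ∀ v : Vc, v ∈ Dm k → 4 * nn (v - w) = r2 → ∀ n, n ∉ (v - w).support →
      n ∉ w.support → Bd p (fun i => φ v i - φ (pm n) i) W := by
    intro v hv h4v n hn hn'
    have h1 : v - pm n = (v - w) - Finsupp.single n a := by
      simp only [pm]; abel
    have h2 : nn (v - pm n) = r2 / 4 + (a : ℝ) ^ 2 := by
      rw [h1, nn_sub_single a hn]
      linarith
    have h3 : v ≠ pm n := by
      intro h
      rw [h, sub_self, nn_zero] at h2
      have : 0 < (a : ℝ) ^ 2 := by positivity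
      linarith
    have h4 := hφ v (pm n) (hDmR k _ hv) (hDmR k _ (hpm n hn')) h3
    refine Bd_of h4.1 ?_
    have h5 : E v (pm n) / nn (v - pm n) ^ (p / 2) ≤ S k :=
      le_csSup (hbdd k) ⟨v, hv, pm n, hpm n hn', h3, rfl⟩
    rw [div_le_iff₀ (hnpos _ _ h3)] at h5
    refine h5.trans (mul_le_mul_of_nonneg_left ?_ hSk0.le)
    rw [h2]
    calc (r2 / 4 + (a : ℝ) ^ 2) ^ (p / 2) ≤ ((1 / 4 * r2) * (1 + 16 * τ ^ 2)) ^ (p / 2) := by
          apply Real.rpow_le_rpow (by positivity) _ (by positivity)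
          linarith
      _ = (1 / 4) ^ (p / 2) * P * (1 + 16 * τ ^ 2) ^ (p / 2) := by
          rw [Real.mul_rpow (by positivity) (by positivity), Real.mul_rpow (by norm_num) hr20.le]
      _ ≤ 2 ^ (-p) * P * (1 + 16 * τ ^ 2) := by
          have e1 : (1 / 4 : ℝ) ^ (p / 2) = 2 ^ (-p) := by
            have : (1 / 4 : ℝ) = 2 ^ (-2 : ℝ) := by
              rw [Real.rpow_neg (by norm_num)]
              norm_num
            rw [this, ← Real.rpow_mul (by norm_num)]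
            congr 1
            ring
          have e2 : (1 + 16 * τ ^ 2) ^ (p / 2) ≤ 1 + 16 * τ ^ 2 := by
            calc (1 + 16 * τ ^ 2) ^ (p / 2) ≤ (1 + 16 * τ ^ 2) ^ (1 : ℝ) :=
                  Real.rpow_le_rpow_of_exponent_le (by linarith) (by linarith)
              _ = _ := Real.rpow_one _
          rw [e1]
          gcongr
  have hX : ∀ᶠ n in UU, Bd p (fun i => φ x i - φ (pm n) i) W := by
    filter_upwards [ev_notMem (x - w).support, ev_notMem w.support] with n h1 h2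
    exact hgen x hxk h4x n h1 h2
  have hY : ∀ᶠ n in UU, Bd p (fun i => φ y i - φ (pm n) i) W := by
    filter_upwards [ev_notMem (y - w).support, ev_notMem w.support] with n h1 h2
    exact hgen y hyk h4y n h1 h2
  have hε0 : 0 < 2 ^ (-p) * P * (C * σ * τ ^ 2) := by positivity
  have hmid := mid_lemma hp1 hε0 hX hY
  obtain ⟨n, hn1, hn2⟩ := (hmid.and (ev_notMem w.support)).exists
  obtain ⟨n', hn1', hn2', hn3'⟩ := (hn1.and ((ev_notMem w.support).and (ev_notMem {n}))).exists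
  rw [Finset.mem_singleton] at hn3'
  have hdiff : pm n - pm n' = Finsupp.single n a - Finsupp.single n' a := by
    simp only [pm]; abel
  have hnn' : nn (pm n - pm n') = 2 * (a : ℝ) ^ 2 := by
    rw [hdiff, nn_two_single (fun h => hn3' h.symm)]
  have hne' : pm n ≠ pm n' := by
    intro h
    rw [h, sub_self, nn_zero] at hnn'
    have : 0 < (a : ℝ) ^ 2 := by positivity
    linarith
  have hlow := (hφ (pm n) (pm n') (hDmR k _ (hpm n hn2)) (hDmR k _ (hpm n' hn2')) hne').2.1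
  have hfin := hlow.trans hn1'.tsum_le
  rw [hnn'] at hfin
  have e1 : τ ^ p * P ≤ (2 * (a : ℝ) ^ 2) ^ (p / 2) := by
    calc τ ^ p * P = (τ ^ 2 * r2) ^ (p / 2) := by
          rw [Real.mul_rpow (by positivity) hr20.le, ← Real.rpow_natCast τ 2,
            ← Real.rpow_mul hτ0.le]
          congr 2
          push_cast
          ring
      _ ≤ (2 * (a : ℝ) ^ 2) ^ (p / 2) := by
          apply Real.rpow_le_rpow (by positivity) _ (by positivity)
          linarith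
  have e2 : c * (σ * (τ ^ p * P)) ≤ c * (σ * (2 * (a : ℝ) ^ 2) ^ (p / 2)) := by gcongr
  have e3 : (2 : ℝ) ^ p * 2 ^ (-p) = 1 := by
    rw [← Real.rpow_add (by norm_num)]
    simp
  have hkp : 0 < (2 : ℝ) ^ (-p) := by positivity
  have e4 : W - 2 ^ (-p) * ∑' i, |φ x i - φ y i| ^ p + 2 ^ (-p) * P * (C * σ * τ ^ 2) ≤
      2 ^ (-p) * (35 * (C * σ * τ ^ 2 * P)) := by
    have h1 : (1 - τ ^ 2) * S (k + 1) * P ≤ ∑' i, |φ x i - φ y i| ^ p := hr.le
    have h2 := hS2 (k + 1) hkK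
    have h3 : W ≤ 2 ^ (-p) * (P * (S (k + 1) * ((1 + τ ^ 2) * (1 + 16 * τ ^ 2)))) := by
      rw [hWd]
      calc S k * (2 ^ (-p) * P * (1 + 16 * τ ^ 2))
          ≤ ((1 + τ ^ 2) * S (k + 1)) * (2 ^ (-p) * P * (1 + 16 * τ ^ 2)) := by gcongr
        _ = _ := by ring
    have h4 : 2 ^ (-p) * ((1 - τ ^ 2) * S (k + 1) * P) ≤
        2 ^ (-p) * ∑' i, |φ x i - φ y i| ^ p := mul_le_mul_of_nonneg_left h1 hkp.le
    have h5 : S (k + 1) * ((1 + τ ^ 2) * (1 + 16 * τ ^ 2) - (1 - τ ^ 2)) ≤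
        C * σ * (34 * τ ^ 2) := by
      have h6 : (1 + τ ^ 2) * (1 + 16 * τ ^ 2) - (1 - τ ^ 2) ≤ 34 * τ ^ 2 := by nlinarith
      have h7 : 0 ≤ (1 + τ ^ 2) * (1 + 16 * τ ^ 2) - (1 - τ ^ 2) := by nlinarith
      exact mul_le_mul h2 h6 h7 (by positivity)
    have h8 : 2 ^ (-p) * P * (S (k + 1) * ((1 + τ ^ 2) * (1 + 16 * τ ^ 2) - (1 - τ ^ 2))) ≤
        2 ^ (-p) * P * (C * σ * (34 * τ ^ 2)) :=
      mul_le_mul_of_nonneg_left h5 (by positivity)
    have h9 : 2 ^ (-p) * (P * (S (k + 1) * ((1 + τ ^ 2) * (1 + 16 * τ ^ 2)))) -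
        2 ^ (-p) * ((1 - τ ^ 2) * S (k + 1) * P) =
        2 ^ (-p) * P * (S (k + 1) * ((1 + τ ^ 2) * (1 + 16 * τ ^ 2) - (1 - τ ^ 2))) := by ring
    have h10 : 2 ^ (-p) * P * (C * σ * (34 * τ ^ 2)) + 2 ^ (-p) * P * (C * σ * τ ^ 2) =
        2 ^ (-p) * (35 * (C * σ * τ ^ 2 * P)) := by ring
    linarith
  have e5 : 2 ^ p * (2 * (W - 2 ^ (-p) * ∑' i, |φ x i - φ y i| ^ p +
      2 ^ (-p) * P * (C * σ * τ ^ 2))) ≤ 70 * (C * σ * τ ^ 2 * P) := by
    calc _ ≤ 2 ^ p * (2 * (2 ^ (-p) * (35 * (C * σ * τ ^ 2 * P)))) := by gcongr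
      _ = (2 ^ p * 2 ^ (-p)) * (70 * (C * σ * τ ^ 2 * P)) := by ring
      _ = _ := by rw [e3, one_mul]
  have e6 : c * (σ * (τ ^ p * P)) ≤ 70 * (C * σ * τ ^ 2 * P) := e2.trans (hfin.trans e5)
  have e7 : (70 * C * τ ^ 2) * (σ * P) < (c * τ ^ p) * (σ * P) :=
    mul_lt_mul_of_pos_right hτ (by positivity)
  linarith

end Pool.Agent.Helper72K
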