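import Mathlib

/-!
# Operators with orthogonal columns
-/

set_option autoImplicit false

open Filter Topology
open scoped ComplexOrder InnerProductSpace NNReal

namespace Pool.Agent.Helper72K

variable {H : Type} [NormedAddCommGroup H] [InnerProductSpace ℂ H] [CompleteSpace H]

/-- eigenvectors and the functional calculus -/
theorem cfc_eig (A : H →L[ℂ] H) (hA : IsSelfAdjoint A) (v : H) (l : ℝ) (hv : A v = (l : ℂ) • v)
    (f : ℝ → ℝ) (hf : ContinuousOn f (spectrum ℝ A)) : (cfc f A) v = (f l : ℂ) • v := by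
  by_cases hv0 : v = 0
  · rw [hv0, map_zero, smul_zero]
  have hl : l ∈ spectrum ℝ A := by
    rw [spectrum.mem_iff]
    intro h
    obtain ⟨u, hu⟩ := h
    apply hv0
    have h1 : (u : H →L[ℂ] H) v = 0 := by
      rw [hu, _root_.sub_apply, hv]
      rw [Algebra.algebraMap_eq_smul_one]
      change (l • v) - (l : ℂ) • v = 0
      rw [Complex.coe_smul, sub_self]
    have h2 : ((u⁻¹ : (H →L[ℂ] H)ˣ) : H →L[ℂ] H) ((u : H →L[ℂ] H) v) = v := by
      have h3 : ((u⁻¹ : (H →L[ℂ] H)ˣ) : H →L[ℂ] H) * (u : H →L[ℂ] H) = 1 := u.inv_mul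
      have h4 := congrArg (fun B : H →L[ℂ] H => B v) h3
      exact h4
    rw [← h2, h1, map_zero]
  rw [cfc_apply f A hA hf]
  have key : ∀ g : C(spectrum ℝ A, ℝ), (cfcHom hA g) v = (g ⟨l, hl⟩ : ℂ) • v := by
    intro g
    induction g using ContinuousMap.induction_on_of_compact with
    | const r =>
      have h1 : ContinuousMap.const (spectrum ℝ A) r = algebraMap ℝ C(spectrum ℝ A, ℝ) r := rfl
      rw [h1, AlgHomClass.commutes, Algebra.algebraMap_eq_smul_one]
      change r • v = _
      rw [← Complex.coe_smul]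
      rfl
    | id =>
      rw [cfcHom_id hA, hv]
      rfl
    | star_id =>
      rw [map_star, cfcHom_id hA, hA.star_eq, hv]
      rfl
    | add f g hf hg =>
      rw [map_add, _root_.add_apply, hf, hg, ContinuousMap.add_apply, Complex.ofReal_add, add_smul]
    | mul f g hf hg =>
      rw [map_mul, ContinuousMap.mul_apply]
      change (cfcHom hA f) ((cfcHom hA g) v) = _
      rw [hg, map_smul, hf, smul_smul, Complex.ofReal_mul, mul_comm]
    | frequently g hg =>
      have hc : IsClosed {g : C(spectrum ℝ A, ℝ) | (cfcHom hA g) v = (g ⟨l, hl⟩ : ℂ) • v} := by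
        apply isClosed_eq
        · exact (ContinuousLinearMap.apply ℂ H v).continuous.comp (cfcHom_continuous hA)
        · exact (Complex.continuous_ofReal.comp
            (ContinuousEvalConst.continuous_eval_const (⟨l, hl⟩ : spectrum ℝ A))).smul
            continuous_const
      exact hc.mem_of_frequently_of_tendsto hg tendsto_id
  exact key _

theorem rpow_eig (A : H →L[ℂ] H) (hA : 0 ≤ A) (v : H) (l : ℝ) (hl : 0 ≤ l)
    (hv : A v = (l : ℂ) • v) (p : ℝ) (hp : 0 < p) : (A ^ p) v = ((l ^ p : ℝ) : ℂ) • v := by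
  rw [CFC.rpow_def, cfc_nnreal_eq_real _ A hA]
  rw [cfc_eig A hA.isSelfAdjoint v l hv]
  · congr 2
    rw [NNReal.coe_rpow, Real.coe_toNNReal l hl]
  · apply Continuous.continuousOn
    refine NNReal.continuous_coe.comp ?_
    exact (NNReal.continuous_rpow_const hp.le).comp continuous_real_toNNReal

theorem absp_eig (T : H →L[ℂ] H) (v : H) (μ : ℝ) (hμ : 0 ≤ μ)
    (hv : (star T * T) v = ((μ ^ 2 : ℝ) : ℂ) • v) (p : ℝ) (hp : 0 < p) :
    (CFC.abs T ^ p) v = ((μ ^ p : ℝ) : ℂ) • v := by
  have h0 : 0 ≤ star T * T := star_mul_self_nonneg T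
  have h1 : CFC.abs T ^ p = (star T * T) ^ (p / 2) := by
    unfold CFC.abs
    rw [CFC.sqrt_eq_rpow, CFC.rpow_rpow_of_exponent_nonneg _ _ _ (by norm_num) hp.le]
    congr 1
    ring
  rw [h1, rpow_eig _ h0 v (μ ^ 2) (by positivity) hv (p / 2) (by positivity)]
  congr 2
  rw [← Real.rpow_natCast μ 2, ← Real.rpow_mul hμ]
  congr 1
  push_cast
  ring

end Pool.Agent.Helper72K
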