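import Pool.Agent.Helper72K.Op

/-!
# Schatten classes
-/

set_option autoImplicit false

open Filter Topology
open scoped ComplexOrder InnerProductSpace NNReal

namespace Pool.Agent.Helper72K

variable {H : Type} [NormedAddCommGroup H] [InnerProductSpace ℂ H] [CompleteSpace H]

/-- the Schatten class of exponent `p` -/
def Sch (p : ℝ) {H : Type} [NormedAddCommGroup H] [InnerProductSpace ℂ H] [CompleteSpace H]
    (x : H →L[ℂ] H) : Prop :=
  ∀ e : HilbertBasis ℕ ℂ H, Summable fun n => (⟪e n, (CFC.abs x ^ p) (e n)⟫_ℂ).re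

/-- reindexing a Hilbert basis -/
theorem reindex {ι ι' : Type} (b : HilbertBasis ι ℂ H) (e : ι' ≃ ι) :
    ∃ b' : HilbertBasis ι' ℂ H, ∀ j, b' j = b (e j) := by
  have h1 : Orthonormal ℂ (fun j => b (e j)) := b.orthonormal.comp e e.injective
  have h2 : ⊤ ≤ (Submodule.span ℂ (Set.range fun j => b (e j))).topologicalClosure := by
    have h3 : (Set.range fun j => b (e j)) = Set.range b := e.surjective.range_comp b
    rw [h3, b.dense_span]
  refine ⟨HilbertBasis.mk h1 h2, fun j => ?_⟩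
  exact congrFun (HilbertBasis.coe_mk h1 h2) j

/-- a separable infinite dimensional Hilbert space has a basis indexed by the naturals -/
theorem exists_basis [TopologicalSpace.SeparableSpace H] (hH : ¬ FiniteDimensional ℂ H) :
    Nonempty (HilbertBasis ℕ ℂ H) := by
  obtain ⟨w, b, hb⟩ := exists_hilbertBasis (𝕜 := ℂ) (E := H)
  have hinf : Infinite w := by
    by_contra hfin
    rw [not_infinite_iff_finite] at hfin
    have := Fintype.ofFinite w
    exact hH b.toOrthonormalBasis.toBasis.finiteDimensional_of_finite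
  have hcount : Countable w := by
    have hdist : ∀ i j : w, i ≠ j → 1 ≤ dist (b i) (b j) := by
      intro i j hij
      have h1 := b.orthonormal
      have h2 : ‖b i - b j‖ ^ 2 = 2 := by
        rw [@norm_sub_sq ℂ, h1.1 i, h1.1 j, h1.2 hij]
        norm_num
      rw [dist_eq_norm]
      by_contra hc
      push Not at hc
      have h3 := norm_nonneg (b i - b j)
      nlinarith
    have hdisj : Pairwise (Function.onFun Disjoint fun i : w => Metric.ball (b i) (1 / 2)) := by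
      intro i j hij
      refine Metric.ball_disjoint_ball ?_
      have := hdist i j hij
      linarith
    have h4 := Set.PairwiseDisjoint.countable_of_isOpen (s := fun i : w => Metric.ball (b i) (1 / 2))
      (a := Set.univ) (fun i _ j _ hij => hdisj hij) (fun i _ => Metric.isOpen_ball)
      (fun i _ => Metric.nonempty_ball.2 (by norm_num))
    exact Set.countable_univ_iff.1 h4
  obtain ⟨e⟩ := nonempty_equiv_of_countable (α := ℕ) (β := w)
  obtain ⟨b', -⟩ := reindex b e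
  exact ⟨b'⟩

omit [CompleteSpace H] in
theorem parseval {ι : Type} (b : HilbertBasis ι ℂ H) (x : H) :
    HasSum (fun i => ‖⟪b i, x⟫_ℂ‖ ^ 2) (‖x‖ ^ 2) := by
  have h1 := Complex.hasSum_re (b.hasSum_inner_mul_inner x x)
  have h2 : ∀ i, (⟪x, b i⟫_ℂ * ⟪b i, x⟫_ℂ).re = ‖⟪b i, x⟫_ℂ‖ ^ 2 := by
    intro i
    rw [← inner_conj_symm x (b i), Complex.conj_mul', ← Complex.ofReal_pow, Complex.ofReal_re]
  simp_rw [h2] at h1
  have h3 : (⟪x, x⟫_ℂ).re = ‖x‖ ^ 2 := by
    rw [inner_self_eq_norm_sq_to_K]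
    simp [← Complex.ofReal_pow]
  rwa [h3] at h1

/-- summability of the squared norms of the images does not depend on the basis -/
theorem hs_indep {ι ι' : Type} (b : HilbertBasis ι ℂ H) (b' : HilbertBasis ι' ℂ H)
    (S : H →L[ℂ] H) (h : Summable fun i => ‖S (b i)‖ ^ 2) :
    Summable fun i => ‖(star S) (b' i)‖ ^ 2 := by
  have h1 : ∀ i, ENNReal.ofReal (‖S (b i)‖ ^ 2) = ∑' m, ENNReal.ofReal (‖⟪b' m, S (b i)⟫_ℂ‖ ^ 2) := by
    intro i
    rw [← (parseval b' (S (b i))).tsum_eq, ENNReal.ofReal_tsum_of_nonneg (fun _ => sq_nonneg _)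
      (parseval b' (S (b i))).summable]
  have h2 : ∀ m, ENNReal.ofReal (‖(star S) (b' m)‖ ^ 2) =
      ∑' i, ENNReal.ofReal (‖⟪b i, (star S) (b' m)⟫_ℂ‖ ^ 2) := by
    intro m
    rw [← (parseval b ((star S) (b' m))).tsum_eq,
      ENNReal.ofReal_tsum_of_nonneg (fun _ => sq_nonneg _) (parseval b ((star S) (b' m))).summable]
  have h3 : ∀ i m, ‖⟪b' m, S (b i)⟫_ℂ‖ = ‖⟪b i, (star S) (b' m)⟫_ℂ‖ := by
    intro i m
    rw [ContinuousLinearMap.star_eq_adjoint, ContinuousLinearMap.adjoint_inner_right,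
      ← inner_conj_symm, RCLike.norm_conj]
  have h4 : ∑' i, ENNReal.ofReal (‖S (b i)‖ ^ 2) = ∑' m, ENNReal.ofReal (‖(star S) (b' m)‖ ^ 2) := by
    simp_rw [h1, h2, h3]
    exact ENNReal.tsum_comm
  have h5 : ∑' i, ENNReal.ofReal (‖S (b i)‖ ^ 2) ≠ ⊤ := by
    rw [← ENNReal.ofReal_tsum_of_nonneg (fun _ => sq_nonneg _) h]
    exact ENNReal.ofReal_ne_top
  rw [h4] at h5
  have h6 := ENNReal.summable_toReal h5
  refine h6.congr fun m => ?_
  rw [ENNReal.toReal_ofReal (sq_nonneg _)]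

/-- summability of the diagonal of a positive operator does not depend on the basis -/
theorem trace_indep {ι ι' : Type} (b : HilbertBasis ι ℂ H) (b' : HilbertBasis ι' ℂ H)
    (T : H →L[ℂ] H) (hT : 0 ≤ T) (h : Summable fun i => (⟪b i, T (b i)⟫_ℂ).re) :
    Summable fun i => (⟪b' i, T (b' i)⟫_ℂ).re := by
  set S := CFC.sqrt T with hS
  have hS0 : 0 ≤ S := CFC.sqrt_nonneg _
  have hSS : S * S = T := CFC.sqrt_mul_sqrt_self _ hT
  have hsa : IsSelfAdjoint S := hS0.isSelfAdjoint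
  have hsym : ∀ x y, ⟪S x, y⟫_ℂ = ⟪x, S y⟫_ℂ := fun x y => by
    have := ContinuousLinearMap.adjoint_inner_right S x y
    rw [← ContinuousLinearMap.star_eq_adjoint, hsa.star_eq] at this
    exact this.symm
  have hdiag : ∀ x, (⟪x, T x⟫_ℂ).re = ‖S x‖ ^ 2 := by
    intro x
    rw [← hSS]
    change (⟪x, S (S x)⟫_ℂ).re = _
    rw [← hsym, inner_self_eq_norm_sq_to_K]
    simp [← Complex.ofReal_pow]
  simp_rw [hdiag] at h ⊢
  have := hs_indep b b' S h
  rwa [hsa.star_eq] at this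

theorem sch_one (b : HilbertBasis ℕ ℂ H) (p : ℝ) (T : H →L[ℂ] H) :
    Sch p T ↔ Summable fun n => (⟪b n, (CFC.abs T ^ p) (b n)⟫_ℂ).re :=
  ⟨fun h => h b, fun h e => trace_indep b e _ (by
    rw [CFC.rpow_def]; exact cfc_nonneg_of_predicate) h⟩

/-- operators with orthogonal columns -/
theorem sch_orth (b : HilbertBasis ℕ ℂ H) {p : ℝ} (hp : 0 < p) (T : H →L[ℂ] H)
    (horth : ∀ k l, k ≠ l → ⟪T (b k), T (b l)⟫_ℂ = 0) :
    Sch p T ↔ Summable fun n => ‖T (b n)‖ ^ p := by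
  rw [sch_one b]
  refine summable_congr fun n => ?_
  have h1 : (star T * T) (b n) = ((‖T (b n)‖ ^ 2 : ℝ) : ℂ) • b n := by
    apply b.repr.injective
    ext l
    rw [b.repr_apply_apply, b.repr_apply_apply]
    change ⟪b l, (star T) (T (b n))⟫_ℂ = _
    rw [ContinuousLinearMap.star_eq_adjoint, ContinuousLinearMap.adjoint_inner_right,
      inner_smul_right]
    have h2 := (orthonormal_iff_ite.1 b.orthonormal) l n
    rw [h2]
    by_cases h : l = n
    · subst h
      rw [if_pos rfl, mul_one, inner_self_eq_norm_sq_to_K]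
      simp
    · rw [if_neg h, mul_zero]
      exact horth l n h
  rw [absp_eig T (b n) ‖T (b n)‖ (norm_nonneg _) h1 p hp, inner_smul_right,
    inner_self_eq_norm_sq_to_K, b.orthonormal.1 n]
  simp

/-- the Hilbert-Schmidt class -/
theorem sch_two (b : HilbertBasis ℕ ℂ H) (T : H →L[ℂ] H) :
    Sch 2 T ↔ Summable fun n => ‖T (b n)‖ ^ 2 := by
  rw [sch_one b]
  refine summable_congr fun n => ?_
  have h1 : CFC.abs T ^ (2 : ℝ) = star T * T := by
    have h2 := CFC.rpow_natCast (CFC.abs T) 2 (CFC.abs_nonneg T)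
    rw [sq, CFC.abs_mul_abs] at h2
    exact_mod_cast h2
  rw [h1]
  change (⟪b n, (star T) (T (b n))⟫_ℂ).re = _
  rw [ContinuousLinearMap.star_eq_adjoint, ContinuousLinearMap.adjoint_inner_right,
    inner_self_eq_norm_sq_to_K]
  simp [← Complex.ofReal_pow]

omit [CompleteSpace H] in
theorem sum_orth {w : ℕ → H} (horth : ∀ k l, k ≠ l → ⟪w k, w l⟫_ℂ = 0) (s : Finset ℕ)
    (a : ℕ → ℂ) : ‖∑ k ∈ s, a k • w k‖ ^ 2 = ∑ k ∈ s, ‖a k‖ ^ 2 * ‖w k‖ ^ 2 := by
  have h1 : ⟪∑ k ∈ s, a k • w k, ∑ k ∈ s, a k • w k⟫_ℂ =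
      ((∑ k ∈ s, ‖a k‖ ^ 2 * ‖w k‖ ^ 2 : ℝ) : ℂ) := by
    rw [sum_inner]
    push_cast
    refine Finset.sum_congr rfl fun k hk => ?_
    rw [inner_sum, Finset.sum_eq_single_of_mem k hk]
    · rw [inner_smul_left, inner_smul_right, inner_self_eq_norm_sq_to_K, ← mul_assoc,
        Complex.conj_mul']
      simp
    · intro l _ hl
      rw [inner_smul_left, inner_smul_right, horth k l (fun h => hl h.symm)]
      simp
  have h2 : (⟪∑ k ∈ s, a k • w k, ∑ k ∈ s, a k • w k⟫_ℂ).re = ‖∑ k ∈ s, a k • w k‖ ^ 2 := by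
    rw [inner_self_eq_norm_sq_to_K]
    simp [← Complex.ofReal_pow]
  rw [← h2, h1, Complex.ofReal_re]

/-- existence of operators with given orthogonal columns -/
theorem exists_op (b : HilbertBasis ℕ ℂ H) (w : ℕ → H) (horth : ∀ k l, k ≠ l → ⟪w k, w l⟫_ℂ = 0)
    (hw : ∀ k, ‖w k‖ ≤ 1) : ∃ T : H →L[ℂ] H, ∀ k, T (b k) = w k := by
  have hfin : ∀ (s : Finset ℕ) (x : H), ‖∑ k ∈ s, ⟪b k, x⟫_ℂ • w k‖ ^ 2 ≤
      ∑ k ∈ s, ‖⟪b k, x⟫_ℂ‖ ^ 2 := by
    intro s x
    rw [sum_orth horth]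
    refine Finset.sum_le_sum fun k _ => ?_
    have h1 : ‖w k‖ ^ 2 ≤ 1 := pow_le_one₀ (norm_nonneg _) (hw k)
    have h2 : 0 ≤ ‖⟪b k, x⟫_ℂ‖ ^ 2 := by positivity
    nlinarith
  have hs : ∀ x : H, Summable fun k => ⟪b k, x⟫_ℂ • w k := by
    intro x
    rw [summable_iff_vanishing_norm]
    intro ε hε
    obtain ⟨s, hs⟩ := summable_iff_vanishing_norm.1 (parseval b x).summable (ε ^ 2) (by positivity)
    refine ⟨s, fun t ht => ?_⟩
    have h1 := hs t ht
    have h2 := hfin t x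
    rw [Real.norm_eq_abs] at h1
    have h3 := (le_abs_self _).trans_lt h1
    exact lt_of_pow_lt_pow_left₀ 2 hε.le (h2.trans_lt h3)
  refine ⟨LinearMap.mkContinuous
    { toFun := fun x => ∑' k, ⟪b k, x⟫_ℂ • w k
      map_add' := by
        intro x y
        rw [← (hs x).tsum_add (hs y)]
        refine tsum_congr fun k => ?_
        rw [inner_add_right, add_smul]
      map_smul' := by
        intro c x
        rw [RingHom.id_apply, ← (hs x).tsum_const_smul]
        refine tsum_congr fun k => ?_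
        rw [inner_smul_right, mul_smul] } 1 ?_, ?_⟩
  · intro x
    rw [one_mul]
    change ‖∑' k, ⟪b k, x⟫_ℂ • w k‖ ≤ ‖x‖
    refine le_of_tendsto ((hs x).hasSum.norm) (Eventually.of_forall fun s => ?_)
    have h1 := hfin s x
    have h2 : ∑ k ∈ s, ‖⟪b k, x⟫_ℂ‖ ^ 2 ≤ ‖x‖ ^ 2 :=
      sum_le_hasSum s (fun _ _ => by positivity) (parseval b x)
    exact le_of_sq_le_sq (h1.trans h2) (norm_nonneg _)
  · intro k
    change ∑' l, ⟪b l, b k⟫_ℂ • w l = w k
    rw [tsum_eq_single k]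
    · have h2 := (orthonormal_iff_ite.1 b.orthonormal) k k
      rw [h2, if_pos rfl, one_smul]
    · intro l hl
      have h2 := (orthonormal_iff_ite.1 b.orthonormal) l k
      rw [h2, if_neg hl, zero_smul]

end Pool.Agent.Helper72K
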