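import Pool.Agent.Helper72K.Clm
import Pool.Agent.Helper72K.Lo
import Pool.Agent.Helper72K.Sch

/-!
# Schatten equivalence and summability relations
-/

set_option autoImplicit false

open Filter Topology
open scoped ComplexOrder InnerProductSpace NNReal

namespace Pool.Agent.Helper72K

/-- the standard Borel structure on the bounded operators -/
noncomputable def opMS (H : Type) [NormedAddCommGroup H] [InnerProductSpace ℂ H] :
    MeasurableSpace (H →L[ℂ] H) :=
  ⨆ q : H × H, MeasurableSpace.comap (fun a : H →L[ℂ] H => ⟪a q.1, q.2⟫_ℂ) (borel ℂ)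

variable {H : Type} [NormedAddCommGroup H] [InnerProductSpace ℂ H]

theorem measurable_into {X : Type} [MeasurableSpace X] (F : X → (H →L[ℂ] H))
    (hF : ∀ ξ η : H, Measurable fun x => ⟪F x ξ, η⟫_ℂ) : @Measurable _ _ _ (opMS H) F := by
  rw [measurable_iff_comap_le]
  unfold opMS
  rw [MeasurableSpace.comap_iSup]
  refine iSup_le fun q => ?_
  rw [MeasurableSpace.comap_comp]
  have h1 := hF q.1 q.2
  have h2 : borel ℂ = (inferInstance : MeasurableSpace ℂ) := (BorelSpace.measurable_eq).symm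
  rw [h2]
  exact h1.comap_le

theorem measurable_coef (ξ η : H) :
    @Measurable _ _ (opMS H) _ fun a : H →L[ℂ] H => ⟪a ξ, η⟫_ℂ := by
  have h2 : Complex.measurableSpace = borel ℂ := BorelSpace.measurable_eq
  rw [measurable_iff_comap_le]
  unfold opMS
  rw [h2]
  exact le_iSup (fun q : H × H =>
    MeasurableSpace.comap (fun a : H →L[ℂ] H => ⟪a q.1, q.2⟫_ℂ) (borel ℂ)) (ξ, η)

variable (b : HilbertBasis ℕ ℂ H)

/-- the vector of a finite integer vector at a position -/
noncomputable def em (k : ℕ) (x : Vc) : H :=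
  x.sum fun c a => (a : ℂ) • b (Nat.pair k c)

theorem em_sub (k : ℕ) (x y : Vc) : em b k (x - y) = em b k x - em b k y := by
  unfold em
  rw [Finsupp.sum_sub_index]
  intro c a a'
  push_cast
  rw [sub_smul]

theorem em_norm (k : ℕ) (x : Vc) : ‖em b k x‖ ^ 2 = nn x := by
  have h1 := sum_orth (w := fun c => b (Nat.pair k c)) (fun c c' h => by
    have h2 := (orthonormal_iff_ite.1 b.orthonormal) (Nat.pair k c) (Nat.pair k c')
    rw [h2, if_neg]
    intro h3
    exact h ((Nat.pair_eq_pair.1 h3).2)) x.support (fun c => ((x c : ℤ) : ℂ))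
  unfold em Finsupp.sum
  rw [h1, nn_eq x subset_rfl]
  refine Finset.sum_congr rfl fun c _ => ?_
  rw [b.orthonormal.1, one_pow, mul_one, Complex.norm_intCast, sq_abs]

theorem em_orth {k l : ℕ} (h : k ≠ l) (x y : Vc) : ⟪em b k x, em b l y⟫_ℂ = 0 := by
  unfold em Finsupp.sum
  rw [sum_inner]
  refine Finset.sum_eq_zero fun c _ => ?_
  rw [inner_sum]
  refine Finset.sum_eq_zero fun c' _ => ?_
  have h2 := (orthonormal_iff_ite.1 b.orthonormal) (Nat.pair k c) (Nat.pair l c')
  rw [inner_smul_left, inner_smul_right, h2, if_neg, mul_zero, mul_zero]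
  intro h3
  exact h (Nat.pair_eq_pair.1 h3).1

/-- decoding -/
noncomputable def dec : ℕ → Vc := (exists_surjective_nat Vc).choose

theorem dec_surj : Function.Surjective dec := (exists_surjective_nat Vc).choose_spec

/-- size of the ball of a type -/
def tR (t : ℕ) : ℕ := t.unpair.1

/-- scale of a type -/
noncomputable def tS (t : ℕ) : ℝ := 1 / (((tR t : ℝ) + 1) * 2 ^ t.unpair.2)

theorem tS_pos (t : ℕ) : 0 < tS t := by unfold tS; positivity

open Classical in
/-- the vector of a code -/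
noncomputable def vec (t u : ℕ) : Vc := if nn (dec u) ≤ tR t then dec u else 0

theorem nn_vec (t u : ℕ) : nn (vec t u) ≤ tR t := by
  unfold vec
  split_ifs with h
  · exact h
  · rw [nn_zero]; positivity

/-- type of a position -/
def po (k : ℕ) : ℕ := k.unpair.1

/-- the columns -/
noncomputable def wv (k u : ℕ) : H := ((tS (po k) : ℝ) : ℂ) • em b k (vec (po k) u)

theorem wv_orth {k l : ℕ} (h : k ≠ l) (u v : ℕ) : ⟪wv b k u, wv b l v⟫_ℂ = 0 := by
  unfold wv
  rw [inner_smul_left, inner_smul_right, em_orth b h, mul_zero, mul_zero]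

theorem wv_norm (k u : ℕ) : ‖wv b k u‖ ≤ 1 := by
  unfold wv
  rw [norm_smul, Complex.norm_real, Real.norm_eq_abs, abs_of_pos (tS_pos _)]
  set t := po k
  have h1 : (tS t * ‖em b k (vec t u)‖) ^ 2 ≤ 1 ^ 2 := by
    rw [mul_pow, em_norm, one_pow]
    have h2 := nn_vec t u
    have h3 : tS t ≤ 1 / ((tR t : ℝ) + 1) := by
      unfold tS
      apply one_div_le_one_div_of_le (by positivity)
      have : (1 : ℝ) ≤ 2 ^ t.unpair.2 := one_le_pow₀ (by norm_num)
      have h4 : (0 : ℝ) < (tR t : ℝ) + 1 := by positivity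
      nlinarith
    have h5 : tS t ^ 2 ≤ (1 / ((tR t : ℝ) + 1)) ^ 2 := pow_le_pow_left₀ (tS_pos t).le h3 2
    have h6 : (0 : ℝ) ≤ tR t := Nat.cast_nonneg _
    calc tS t ^ 2 * nn (vec t u) ≤ (1 / ((tR t : ℝ) + 1)) ^ 2 * tR t :=
          mul_le_mul h5 h2 (nn_nonneg _) (by positivity)
      _ ≤ 1 := by
          rw [div_pow, one_pow, div_mul_eq_mul_div, div_le_one (by positivity)]
          nlinarith
  exact le_of_sq_le_sq h1 (by norm_num)

/-- the distance of a type -/
noncomputable def dd (p : ℝ) (t u v : ℕ) : ℝ := tS t ^ p * nn (vec t u - vec t v) ^ (p / 2)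

theorem dd_nonneg (p : ℝ) (t u v : ℕ) : 0 ≤ dd p t u v := by
  unfold dd
  have := tS_pos t
  have := nn_nonneg (vec t u - vec t v)
  positivity

theorem dd_self {p : ℝ} (hp : 0 < p) (t v : ℕ) : dd p t v v = 0 := by
  unfold dd
  rw [sub_self, nn_zero, Real.zero_rpow (by positivity), mul_zero]

theorem wv_dist {p : ℝ} (k u v : ℕ) :
    ‖wv b k u - wv b k v‖ ^ p = dd p (po k) u v := by
  unfold wv dd
  rw [← smul_sub, ← em_sub, norm_smul, Complex.norm_real, Real.norm_eq_abs,
    abs_of_pos (tS_pos _), Real.mul_rpow (tS_pos _).le (norm_nonneg _)]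
  congr 1
  rw [← em_norm b k, ← Real.rpow_natCast (‖em b k _‖) 2, ← Real.rpow_mul (norm_nonneg _)]
  congr 1
  push_cast
  ring

variable [CompleteSpace H]

theorem exists_opz (x : Z) : ∃ T : H →L[ℂ] H, ∀ k, T (b k) = wv b k (x k) :=
  exists_op b _ (fun _ _ h => wv_orth b h _ _) fun _ => wv_norm b _ _

/-- the operator of a point -/
noncomputable def opz (x : Z) : H →L[ℂ] H := (exists_opz b x).choose

theorem opz_apply (x : Z) (k : ℕ) : opz b x (b k) = wv b k (x k) := (exists_opz b x).choose_spec k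

theorem opz_meas : @Measurable _ _ _ (opMS H) (opz b) := by
  apply measurable_into
  intro ξ η
  have h1 : ∀ x, HasSum (fun k => b.repr ξ k * ⟪η, wv b k (x k)⟫_ℂ) ⟪η, opz b x ξ⟫_ℂ := by
    intro x
    have h2 := (b.hasSum_repr ξ).mapL (opz b x)
    have h3 := h2.mapL (innerSL ℂ η)
    simp only [map_smul, opz_apply, innerSL_apply_apply, smul_eq_mul] at h3
    exact h3
  have h2 : ∀ n : ℕ, Measurable fun x : Z =>
      ∑ k ∈ Finset.range n, b.repr ξ k * ⟪η, wv b k (x k)⟫_ℂ := by
    intro n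
    refine Finset.measurable_fun_sum _ fun k _ => ?_
    have h3 : Measurable fun v : ℕ => b.repr ξ k * ⟪η, wv b k v⟫_ℂ := measurable_of_countable _
    exact h3.comp (measurable_pi_apply k)
  have h3 : Measurable fun x : Z => ⟪η, opz b x ξ⟫_ℂ := by
    refine measurable_of_tendsto_metrizable h2 ?_
    rw [tendsto_pi_nhds]
    intro x
    exact (h1 x).tendsto_sum_nat
  have h4 : (fun x : Z => ⟪opz b x ξ, η⟫_ℂ) = fun x => (starRingEnd ℂ) ⟪η, opz b x ξ⟫_ℂ := by
    funext x
    rw [inner_conj_symm]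
  rw [h4]
  exact Complex.continuous_conj.measurable.comp h3

theorem sch_opz {p : ℝ} (hp : 0 < p) (x y : Z) :
    Sch p (opz b x - opz b y) ↔ Summable fun k => dd p (po k) (x k) (y k) := by
  have h1 : ∀ k, (opz b x - opz b y) (b k) = wv b k (x k) - wv b k (y k) := by
    intro k
    rw [_root_.sub_apply, opz_apply, opz_apply]
  rw [sch_orth b hp]
  · refine summable_congr fun k => ?_
    rw [h1, wv_dist]
  · intro k l hkl
    rw [h1, h1]
    simp only [inner_sub_left, inner_sub_right, wv_orth b hkl, sub_self]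

/-- the general obstruction -/
theorem core {p q : ℝ} (hp : 0 < p) (hq : 0 < q)
    (hobs : ∀ c C : ℝ, 0 < c → 0 < C → ∃ R : ℕ, ∀ σ : ℝ, 0 < σ → ∀ φ, ¬ Emb p q c C R σ φ)
    [TopologicalSpace.SeparableSpace H] (hH : ¬ FiniteDimensional ℂ H) :
    ¬ ∃ f : (H →L[ℂ] H) → (ℕ → ℝ), @Measurable _ _ (opMS H) MeasurableSpace.pi f ∧
      ∀ a b : H →L[ℂ] H, Sch p (a - b) ↔ Summable fun n => |f a n - f b n| ^ q := by
  rintro ⟨f, hf, hred⟩
  obtain ⟨b⟩ := exists_basis hH
  obtain ⟨c, C, δ, hc, hC, hδ, hall⟩ := uniform_maps (τ := po) (d := dd p)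
    (θ := fun x => f (opz b x)) hq (hf.comp (opz_meas b)) (dd_nonneg p) (dd_self hp)
    (fun t N => ⟨Nat.pair t N, Nat.right_le_pair t N, by simp [po]⟩)
    (fun x y => by rw [← sch_opz b hp, hred])
  obtain ⟨R, hR⟩ := hobs c C hc hC
  -- choice of the scale
  obtain ⟨Q, hQ⟩ : ∃ Q : ℕ, (1 / (((R : ℝ) + 1) * 2 ^ Q)) ^ p * (4 * R) ^ (p / 2) < min 1 δ := by
    have h1 : Tendsto (fun Q : ℕ => (1 / (((R : ℝ) + 1) * 2 ^ Q)) ^ p * (4 * (R : ℝ)) ^ (p / 2))
        atTop (𝓝 (0 ^ p * (4 * (R : ℝ)) ^ (p / 2))) := by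
      refine Tendsto.mul_const _ (Tendsto.rpow_const ?_ (Or.inr hp.le))
      have h2 : Tendsto (fun Q : ℕ => 1 / ((R : ℝ) + 1) * (1 / 2) ^ Q) atTop
          (𝓝 (1 / ((R : ℝ) + 1) * 0)) :=
        (tendsto_pow_atTop_nhds_zero_of_lt_one (by norm_num) (by norm_num)).const_mul _
      rw [mul_zero] at h2
      refine h2.congr fun Q => ?_
      rw [one_div_pow, one_div_mul_one_div]
    rw [Real.zero_rpow hp.ne', zero_mul] at h1
    exact (h1.eventually (gt_mem_nhds (lt_min one_pos hδ))).exists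
  set t := Nat.pair R Q with ht
  have hRt : tR t = R := by simp [tR, ht]
  have hSt : tS t = 1 / (((R : ℝ) + 1) * 2 ^ Q) := by
    unfold tS
    rw [hRt]
    simp [ht]
  have hs0 := tS_pos t
  obtain ⟨φ, hφs, hφ⟩ := hall t (tS t ^ p) (by positivity)
  choose cod hcod using dec_surj
  refine hR (tS t ^ p) (by positivity) (fun x => φ (cod x)) fun x y hx hy hxy => ?_
  have hvec : ∀ z : Vc, nn z ≤ R → vec t (cod z) = z := by
    intro z hz
    unfold vec
    rw [hcod, hRt, if_pos hz]
  have hdd : dd p t (cod x) (cod y) = tS t ^ p * nn (x - y) ^ (p / 2) := by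
    unfold dd
    rw [hvec x hx, hvec y hy]
  have h1 : tS t ^ p ≤ dd p t (cod x) (cod y) := by
    rw [hdd]
    apply le_mul_of_one_le_right (by positivity)
    exact Real.one_le_rpow (nn_one_le (sub_ne_zero.2 hxy)) (by positivity)
  have h2 : dd p t (cod x) (cod y) ≤ min 1 δ := by
    rw [hdd]
    refine le_trans ?_ hQ.le
    rw [hSt]
    have h3 : nn (x - y) ≤ 4 * R := by
      have := nn_par x y
      have := nn_nonneg (x + y)
      linarith
    have h4 : nn (x - y) ^ (p / 2) ≤ (4 * (R : ℝ)) ^ (p / 2) :=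
      Real.rpow_le_rpow (nn_nonneg _) h3 (by positivity)
    gcongr
  obtain ⟨h5, h6⟩ := hφ (cod x) (cod y) h1
  refine ⟨hφs _ _, ?_, ?_⟩
  · rw [← hdd]
    exact h5 (h2.trans (min_le_left _ _))
  · rw [← hdd]
    exact h6 (h2.trans (min_le_right _ _))

/-- the Hilbert-Schmidt class is reducible -/
theorem pos_two [TopologicalSpace.SeparableSpace H] (hH : ¬ FiniteDimensional ℂ H) :
    ∃ f : (H →L[ℂ] H) → (ℕ → ℝ), @Measurable _ _ (opMS H) MeasurableSpace.pi f ∧
      ∀ a b : H →L[ℂ] H, Sch 2 (a - b) ↔ Summable fun n => |f a n - f b n| ^ (2 : ℝ) := by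
  obtain ⟨b⟩ := exists_basis hH
  let g : (H →L[ℂ] H) → ℕ → ℕ → ℝ := fun a j i =>
    if i = 0 then (⟪a (b j.unpair.1), b j.unpair.2⟫_ℂ).re
    else (⟪a (b j.unpair.1), b j.unpair.2⟫_ℂ).im
  refine ⟨fun a j => if j.unpair.2 < 2 then g a j.unpair.1 j.unpair.2 else 0, ?_, ?_⟩
  · let _ := opMS H
    refine measurable_pi_lambda _ fun j => ?_
    by_cases h : j.unpair.2 < 2
    · simp only [if_pos h]
      by_cases h' : j.unpair.2 = 0
      · simp only [g, if_pos h']
        exact Complex.measurable_re.comp (measurable_coef _ _)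
      · simp only [g, if_neg h']
        exact Complex.measurable_im.comp (measurable_coef _ _)
    · simp only [if_neg h]
      exact measurable_const
  · intro x y
    rw [sch_two b]
    have h1 : (fun j : ℕ => |(if j.unpair.2 < 2 then g x j.unpair.1 j.unpair.2 else 0) -
        (if j.unpair.2 < 2 then g y j.unpair.1 j.unpair.2 else 0)| ^ (2 : ℝ)) =
        fun j : ℕ => if j.unpair.2 < (fun _ => 2) j.unpair.1 then
          (fun j i => (g x j i - g y j i) ^ 2) j.unpair.1 j.unpair.2 else 0 := by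
      funext j
      have h2 : ((2 : ℕ) : ℝ) = 2 := by norm_num
      simp only
      split_ifs with h
      · rw [← h2, Real.rpow_natCast, sq_abs]
      · rw [← h2, Real.rpow_natCast]; simp
    rw [h1, pair_summable (fun j i => (g x j i - g y j i) ^ 2) (fun _ _ => sq_nonneg _)
      (fun _ => 2)]
    have h3 : ∀ j : ℕ, ∑ i ∈ Finset.range 2, (g x j i - g y j i) ^ 2 =
        ‖⟪b j.unpair.2, (x - y) (b j.unpair.1)⟫_ℂ‖ ^ 2 := by
      intro j
      rw [Finset.sum_range_succ, Finset.sum_range_one]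
      simp only [g, if_pos, one_ne_zero, if_false]
      rw [norm_inner_symm, _root_.sub_apply, inner_sub_left,
        Complex.sq_norm, Complex.normSq_apply, Complex.sub_re, Complex.sub_im]
      ring
    simp only [h3]
    have h4 : (Summable fun j : ℕ => ‖⟪b j.unpair.2, (x - y) (b j.unpair.1)⟫_ℂ‖ ^ 2) ↔
        Summable fun p : ℕ × ℕ => ‖⟪b p.2, (x - y) (b p.1)⟫_ℂ‖ ^ 2 := by
      rw [← Nat.pairEquiv.symm.summable_iff]
      rfl
    rw [h4, summable_prod_of_nonneg (fun _ => by positivity)]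
    have h5 : ∀ n, HasSum (fun m => ‖⟪b m, (x - y) (b n)⟫_ℂ‖ ^ 2) (‖(x - y) (b n)‖ ^ 2) :=
      fun n => parseval b _
    simp only [fun n => (h5 n).tsum_eq]
    exact ⟨fun h => ⟨fun n => (h5 n).summable, h⟩, fun h => h.2⟩

/-- the classification -/
theorem classify [TopologicalSpace.SeparableSpace H] (hH : ¬ FiniteDimensional ℂ H) {p : ℝ}
    (hp : 1 ≤ p) :
    (∃ f : (H →L[ℂ] H) → (ℕ → ℝ), @Measurable _ _ (opMS H) MeasurableSpace.pi f ∧
      ∀ a b : H →L[ℂ] H, Sch p (a - b) ↔ Summable fun n => |f a n - f b n| ^ p) ↔ p = 2 := by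
  constructor
  · intro h
    by_contra hne
    rcases lt_or_gt_of_ne hne with h2 | h2
    · exact core (by linarith) (by linarith) (fun c C hc hC => low_contra hp h2 hc hC) hH h
    · exact core (by linarith) (by linarith) (fun c C hc hC => high_contra h2 (by linarith) hc hC)
        hH h
  · rintro rfl
    exact pos_two hH

end Pool.Agent.Helper72K
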