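import Mathlib

/-!
# Weak limits in sequence spaces
-/

set_option autoImplicit false

open Filter Topology

namespace Pool.Agent.Helper72K

/-- all finite sums of the powers are at most `X` -/
def Bd (q : ℝ) (a : ℕ → ℝ) (X : ℝ) : Prop := ∀ s : Finset ℕ, ∑ i ∈ s, |a i| ^ q ≤ X

/-- the ultrafilter used for limits -/
noncomputable abbrev UU : Filter ℕ := (hyperfilter ℕ : Filter ℕ)

theorem Bd.mono {q : ℝ} {a : ℕ → ℝ} {X Y : ℝ} (h : Bd q a X) (hXY : X ≤ Y) : Bd q a Y :=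
  fun s => (h s).trans hXY

theorem Bd.nonneg {q : ℝ} {a : ℕ → ℝ} {X : ℝ} (h : Bd q a X) : 0 ≤ X := by
  have := h ∅
  simpa using this

theorem Bd.summable {q : ℝ} {a : ℕ → ℝ} {X : ℝ} (h : Bd q a X) : Summable fun i => |a i| ^ q :=
  summable_of_sum_le (fun _ => by positivity) h

theorem Bd.tsum_le {q : ℝ} {a : ℕ → ℝ} {X : ℝ} (h : Bd q a X) : ∑' i, |a i| ^ q ≤ X :=
  h.summable.tsum_le_of_sum_le h

theorem Bd_of {q : ℝ} {a : ℕ → ℝ} {X : ℝ} (hs : Summable fun i => |a i| ^ q)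
    (h : ∑' i, |a i| ^ q ≤ X) : Bd q a X :=
  fun s => (hs.sum_le_tsum s fun _ _ => by positivity).trans h

theorem Bd_swap {q : ℝ} {a b : ℕ → ℝ} {X : ℝ} (h : Bd q (fun i => a i - b i) X) :
    Bd q (fun i => b i - a i) X := by
  intro s
  have := h s
  refine le_trans (le_of_eq (Finset.sum_congr rfl fun i _ => ?_)) this
  rw [abs_sub_comm]

/-- the basic inequality -/
theorem eta {q : ℝ} (hq : 0 < q) {η : ℝ} (hη : 0 < η) :
    ∃ K : ℝ, 0 < K ∧ ∀ a b : ℝ, |a + b| ^ q ≤ (1 + η) * |a| ^ q + K * |b| ^ q := by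
  rcases le_or_gt q 1 with h1 | h1
  · refine ⟨1, one_pos, fun a b => ?_⟩
    have h2 : |a + b| ^ q ≤ (|a| + |b|) ^ q :=
      Real.rpow_le_rpow (abs_nonneg _) (abs_add_le a b) hq.le
    have h3 : (|a| + |b|) ^ q ≤ |a| ^ q + |b| ^ q := by
      have := NNReal.rpow_add_le_add_rpow ⟨|a|, abs_nonneg a⟩ ⟨|b|, abs_nonneg b⟩ hq.le h1
      exact_mod_cast this
    have h4 : 0 ≤ |a| ^ q := by positivity
    nlinarith
  · have hlim : Tendsto (fun t : ℝ => (1 - t) ^ (1 - q)) (𝓝 0) (𝓝 1) := by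
      have h2 : ContinuousAt (fun t : ℝ => (1 - t) ^ (1 - q)) 0 :=
        (continuousAt_const.sub continuousAt_id).rpow_const (Or.inl (by norm_num))
      have h3 := h2.tendsto
      simpa using h3
    have h2 : ∀ᶠ t in 𝓝[>] (0 : ℝ), (1 - t) ^ (1 - q) < 1 + η :=
      (hlim.mono_left nhdsWithin_le_nhds).eventually (gt_mem_nhds (by linarith))
    have h3 : ∀ᶠ t in 𝓝[>] (0 : ℝ), t < 1 :=
      nhdsWithin_le_nhds (gt_mem_nhds (by norm_num : (0 : ℝ) < 1))
    have h4 : ∀ᶠ t in 𝓝[>] (0 : ℝ), 0 < t := self_mem_nhdsWithin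
    obtain ⟨t, ht1, ht2, ht3⟩ := (h2.and (h3.and h4)).exists
    refine ⟨t ^ (1 - q), by positivity, fun a b => ?_⟩
    have ht4 : 0 < 1 - t := by linarith
    have h5 := (convexOn_rpow h1.le).2 (x := |a| / (1 - t)) (y := |b| / t)
      (Set.mem_Ici.2 (by positivity)) (Set.mem_Ici.2 (by positivity)) ht4.le ht3.le (by ring)
    simp only [smul_eq_mul] at h5
    have e1 : (1 - t) * (|a| / (1 - t)) + t * (|b| / t) = |a| + |b| := by
      field_simp
    have e2 : ∀ (s x : ℝ), 0 < s → 0 ≤ x → s * (x / s) ^ q = s ^ (1 - q) * x ^ q := by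
      intro s x hs hx
      rw [Real.div_rpow hx hs.le, Real.rpow_sub hs, Real.rpow_one]
      ring
    rw [e1, e2 _ _ ht4 (abs_nonneg _), e2 _ _ ht3 (abs_nonneg _)] at h5
    have h6 : |a + b| ^ q ≤ (|a| + |b|) ^ q :=
      Real.rpow_le_rpow (abs_nonneg _) (abs_add_le a b) hq.le
    have h7 : 0 ≤ |a| ^ q := by positivity
    calc |a + b| ^ q ≤ (1 - t) ^ (1 - q) * |a| ^ q + t ^ (1 - q) * |b| ^ q := h6.trans h5
      _ ≤ _ := by gcongr

theorem tendsto_pow_sum {q : ℝ} (hq : 0 < q) {f : ℕ → ℕ → ℝ} {g : ℕ → ℝ} {F : Filter ℕ}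
    (s : Finset ℕ) (h : ∀ i, Tendsto (fun n => f n i) F (𝓝 (g i))) :
    Tendsto (fun n => ∑ i ∈ s, |f n i| ^ q) F (𝓝 (∑ i ∈ s, |g i| ^ q)) := by
  refine tendsto_finsetSum _ fun i _ => ?_
  exact ((h i).abs).rpow_const (Or.inr hq.le)

theorem Bd_lim {q : ℝ} (hq : 0 < q) {f : ℕ → ℕ → ℝ} {g : ℕ → ℝ} {F : Filter ℕ} [F.NeBot]
    {X : ℝ} (h : ∀ i, Tendsto (fun n => f n i) F (𝓝 (g i))) (hB : ∀ᶠ n in F, Bd q (f n) X) :
    Bd q g X := fun s =>
  le_of_tendsto (tendsto_pow_sum hq s h) (hB.mono fun _ hn => hn s)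

theorem exists_lim {f : ℕ → ℕ → ℝ} (h : ∀ i, ∃ K, ∀ᶠ n in UU, |f n i| ≤ K) :
    ∃ g : ℕ → ℝ, ∀ i, Tendsto (fun n => f n i) UU (𝓝 (g i)) := by
  have h1 : ∀ i, ∃ x, Tendsto (fun n => f n i) UU (𝓝 x) := by
    intro i
    obtain ⟨K, hK⟩ := h i
    have h2 : ((hyperfilter ℕ).map (fun n => f n i) : Filter ℝ) ≤ 𝓟 (Set.Icc (-K) K) := by
      rw [le_principal_iff]
      change ∀ᶠ n in UU, f n i ∈ Set.Icc (-K) K
      exact hK.mono fun n hn => abs_le.1 hn
    obtain ⟨x, -, hx⟩ := isCompact_Icc.ultrafilter_le_nhds _ h2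
    exact ⟨x, hx⟩
  choose g hg using h1
  exact ⟨g, hg⟩

theorem abs_le_of_Bd {q : ℝ} (hq : 0 < q) {a : ℕ → ℝ} {X : ℝ} (h : Bd q a X) (i : ℕ) :
    |a i| ≤ X ^ (1 / q) := by
  have h1 := h {i}
  rw [Finset.sum_singleton] at h1
  calc |a i| = (|a i| ^ q) ^ (1 / q) := by
        rw [← Real.rpow_mul (abs_nonneg _), mul_one_div_cancel hq.ne', Real.rpow_one]
    _ ≤ X ^ (1 / q) := Real.rpow_le_rpow (by positivity) h1 (by positivity)

theorem small_tail {q : ℝ} {a : ℕ → ℝ} (h : Summable fun i => |a i| ^ q) {ε : ℝ} (hε : 0 < ε) :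
    ∃ M, ∀ m, M ≤ m → ∀ s : Finset ℕ, (∀ i ∈ s, m ≤ i) → ∑ i ∈ s, |a i| ^ q ≤ ε := by
  obtain ⟨s, hs⟩ := summable_iff_vanishing_norm.1 h ε hε
  obtain ⟨M, hM⟩ := s.bddAbove
  refine ⟨M + 1, fun l hl t ht => ?_⟩
  have h1 : Disjoint t s := by
    rw [Finset.disjoint_left]
    intro i hi his
    have h2 := ht i hi
    have h3 := hM his
    omega
  have h2 := hs t h1
  rw [Real.norm_eq_abs] at h2
  exact (le_abs_self _).trans h2.le

theorem sum_split {q : ℝ} (a : ℕ → ℝ) (s : Finset ℕ) (M : ℕ) :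
    ∑ i ∈ s, |a i| ^ q = ∑ i ∈ s.filter (fun i => i < M), |a i| ^ q +
      ∑ i ∈ s.filter (fun i => ¬ i < M), |a i| ^ q :=
  (Finset.sum_filter_add_sum_filter_not s (fun i => i < M) _).symm

theorem filter_lt_le {q : ℝ} (a : ℕ → ℝ) (s : Finset ℕ) (M : ℕ) :
    ∑ i ∈ s.filter (fun i => i < M), |a i| ^ q ≤ ∑ i ∈ Finset.range M, |a i| ^ q :=
  Finset.sum_le_sum_of_subset_of_nonneg
    (fun i hi => Finset.mem_range.2 (Finset.mem_filter.1 hi).2) fun _ _ _ => by positivity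

/-- upper splitting -/
theorem split_upper {q : ℝ} (hq : 0 < q) {F : Filter ℕ} {a : ℕ → ℝ} {A Λ ε : ℝ} (hε : 0 < ε)
    (ha : Bd q a A) {g : ℕ → ℕ → ℝ} (hg : ∀ᶠ n in F, Bd q (g n) Λ) (hΛ : 0 ≤ Λ)
    (hg0 : ∀ i, Tendsto (fun n => g n i) F (𝓝 0)) :
    ∀ᶠ n in F, Bd q (fun i => a i + g n i) (A + Λ + ε) := by
  have hA := ha.nonneg
  set η := ε / (3 * (A + Λ + 1)) with hη
  have hη0 : 0 < η := by positivity
  obtain ⟨K, hK, hK'⟩ := eta hq hη0
  obtain ⟨M, hM⟩ := small_tail ha.summable (show 0 < ε / (3 * K) by positivity)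
  have h1 := tendsto_pow_sum hq (Finset.range M) hg0
  have h2 : ∑ i ∈ Finset.range M, |(0 : ℝ)| ^ q = 0 := by
    simp [Real.zero_rpow hq.ne']
  rw [h2] at h1
  have h3 := h1.eventually (gt_mem_nhds (show 0 < ε / (3 * K) by positivity))
  filter_upwards [h3, hg] with n hn hgn s
  rw [sum_split _ s M]
  have e1 : ∑ i ∈ s.filter (fun i => i < M), |a i + g n i| ^ q ≤
      (1 + η) * A + ε / 3 := by
    calc _ ≤ ∑ i ∈ s.filter (fun i => i < M), ((1 + η) * |a i| ^ q + K * |g n i| ^ q) :=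
          Finset.sum_le_sum fun i _ => hK' _ _
      _ = (1 + η) * ∑ i ∈ s.filter (fun i => i < M), |a i| ^ q +
          K * ∑ i ∈ s.filter (fun i => i < M), |g n i| ^ q := by
          rw [Finset.sum_add_distrib, Finset.mul_sum, Finset.mul_sum]
      _ ≤ (1 + η) * A + K * (ε / (3 * K)) := by
          gcongr
          · exact ha _
          · exact (filter_lt_le _ s M).trans hn.le
      _ = _ := by field_simp
  have e2 : ∑ i ∈ s.filter (fun i => ¬ i < M), |a i + g n i| ^ q ≤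
      (1 + η) * Λ + ε / 3 := by
    calc _ ≤ ∑ i ∈ s.filter (fun i => ¬ i < M), ((1 + η) * |g n i| ^ q + K * |a i| ^ q) :=
          Finset.sum_le_sum fun i _ => by rw [add_comm (a i)]; exact hK' _ _
      _ = (1 + η) * ∑ i ∈ s.filter (fun i => ¬ i < M), |g n i| ^ q +
          K * ∑ i ∈ s.filter (fun i => ¬ i < M), |a i| ^ q := by
          rw [Finset.sum_add_distrib, Finset.mul_sum, Finset.mul_sum]
      _ ≤ (1 + η) * Λ + K * (ε / (3 * K)) := by
          gcongr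
          · exact hgn _
          · exact hM M le_rfl _ fun i hi => not_lt.1 (Finset.mem_filter.1 hi).2
      _ = _ := by field_simp
  have e3 : η * (A + Λ) ≤ ε / 3 := by
    rw [hη, div_mul_eq_mul_div, div_le_iff₀ (by positivity)]
    nlinarith
  linarith

/-- lower splitting -/
theorem split_lower {q : ℝ} (hq : 0 < q) {F : Filter ℕ} {a : ℕ → ℝ} {A W ε : ℝ} (hε : 0 < ε)
    (ha : Bd q a A) {g : ℕ → ℕ → ℝ} (hg : ∀ᶠ n in F, Bd q (fun i => a i + g n i) W)
    (hW : 0 ≤ W) (hg0 : ∀ i, Tendsto (fun n => g n i) F (𝓝 0)) :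
    ∀ᶠ n in F, Bd q (g n) (W - ∑' i, |a i| ^ q + ε) := by
  set E := ∑' i, |a i| ^ q with hE
  have hE0 : 0 ≤ E := tsum_nonneg fun _ => by positivity
  set η := ε / (5 * (W + ε + 1)) with hη
  have hη0 : 0 < η := by positivity
  obtain ⟨K, hK, hK'⟩ := eta hq hη0
  obtain ⟨M1, hM1⟩ := small_tail ha.summable (show 0 < ε / (5 * K) by positivity)
  have h0 := ha.summable.hasSum.tendsto_sum_nat.eventually
    (lt_mem_nhds (show E - ε / 10 < E by linarith))
  obtain ⟨M2, hM2⟩ := h0.exists_forall_of_atTop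
  set M := max M1 M2 with hM
  have h1 := tendsto_pow_sum hq (Finset.range M) hg0
  have h2 : ∑ i ∈ Finset.range M, |(0 : ℝ)| ^ q = 0 := by
    simp [Real.zero_rpow hq.ne']
  rw [h2] at h1
  have h3 := h1.eventually (gt_mem_nhds (show 0 < ε / 5 by positivity))
  have h4 : Tendsto (fun n => ∑ i ∈ Finset.range M, |a i + g n i| ^ q) F
      (𝓝 (∑ i ∈ Finset.range M, |a i| ^ q)) := by
    refine tendsto_pow_sum hq _ fun i => ?_
    have := (hg0 i).const_add (a i)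
    rwa [add_zero] at this
  have h5 := h4.eventually (lt_mem_nhds (show ∑ i ∈ Finset.range M, |a i| ^ q - ε / 10 <
    ∑ i ∈ Finset.range M, |a i| ^ q by linarith))
  have h6 := hM2 M (le_max_right _ _)
  filter_upwards [h3, h5, hg] with n hn3 hn5 hgn s
  rw [sum_split _ s M]
  have e0 : ∑ i ∈ s.filter (fun i => ¬ i < M), |a i + g n i| ^ q ≤ W - E + ε / 5 := by
    have h7 := hgn (Finset.range M ∪ s.filter (fun i => ¬ i < M))
    rw [Finset.sum_union (by
      rw [Finset.disjoint_left]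
      intro i hi hi'
      exact (Finset.mem_filter.1 hi').2 (Finset.mem_range.1 hi))] at h7
    linarith
  have e0' : 0 ≤ ∑ i ∈ s.filter (fun i => ¬ i < M), |a i + g n i| ^ q :=
    Finset.sum_nonneg fun _ _ => by positivity
  have e1 : ∑ i ∈ s.filter (fun i => i < M), |g n i| ^ q ≤ ε / 5 :=
    (filter_lt_le _ s M).trans hn3.le
  have e2 : ∑ i ∈ s.filter (fun i => ¬ i < M), |g n i| ^ q ≤
      (1 + η) * (W - E + ε / 5) + ε / 5 := by
    calc _ ≤ ∑ i ∈ s.filter (fun i => ¬ i < M), ((1 + η) * |a i + g n i| ^ q + K * |a i| ^ q) :=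
          Finset.sum_le_sum fun i _ => by
            have := hK' (a i + g n i) (-a i)
            rw [abs_neg] at this
            have h8 : a i + g n i + -a i = g n i := by ring
            rwa [h8] at this
      _ = (1 + η) * ∑ i ∈ s.filter (fun i => ¬ i < M), |a i + g n i| ^ q +
          K * ∑ i ∈ s.filter (fun i => ¬ i < M), |a i| ^ q := by
          rw [Finset.sum_add_distrib, Finset.mul_sum, Finset.mul_sum]
      _ ≤ (1 + η) * (W - E + ε / 5) + K * (ε / (5 * K)) := by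
          gcongr
          exact hM1 M (le_max_left _ _) _ fun i hi => not_lt.1 (Finset.mem_filter.1 hi).2
      _ = _ := by field_simp
  have e3 : η * (W - E + ε / 5) ≤ ε / 5 := by
    have h7 : η * (W - E + ε / 5) ≤ η * (W + ε + 1) :=
      mul_le_mul_of_nonneg_left (by linarith) hη0.le
    refine h7.trans (le_of_eq ?_)
    rw [hη]
    field_simp
  nlinarith

end Pool.Agent.Helper72K
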